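import Mathlib
import Pool.Agent.J6H13.RW.Cnt

/-! A variant of `Pool.Agent.J6H13.RW.bad_gen`. -/

set_option autoImplicit false

namespace Pool.Agent.J6H13.RW

open Finset

open Classical in
/-- `bad_gen` with the hypothesis for elements of `V` only -/
theorem bad_genV (T K : ℕ) (hK : 1 ≤ K) : ∃ N : ℕ, 1 ≤ N ∧
    ∀ (q : ℕ) (P : ℕ → Prop) (Good : Finset ℕ → Prop) (V : Finset ℕ),
    (∀ h : ℕ → ℕ, (∀ x < T * K, h x ∈ V) → (∀ x < T * K, ∀ y < T * K, h x = h y → x = y) →
      (∀ p : ℕ, p.Prime → ¬ p ∣ q → ∃ b : ℕ, ∀ x < T * K, ¬ p ∣ b + h x) →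
      ∃ I : Finset ℕ, (∀ x ∈ I, x < T * K) ∧ P I.card ∧ (∀ x ∈ I, ∀ y ∈ I, x / K = y / K → x = y) ∧
        Good (I.image h)) →
    N ≤ V.card →
    (∀ p : ℕ, p.Prime → p ≤ T → ¬ p ∣ q → ∃ b : ℕ, ∀ x ∈ V, ¬ p ∣ b + x) →
    (((Fintype.piFinset (fun _ : Fin T => V)).filter (fun f => ¬ HitG P Good f)).card : ℝ) ≤
      1 / 2 * (V.card : ℝ) ^ T := by
  set Q : ℕ := (T * K).factorial with hQ
  have hQpos : 0 < Q := Nat.factorial_pos _
  set t : Finset (Fin T → ℕ) := Fintype.piFinset (fun _ : Fin T => range Q) with ht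
  have htne : t.Nonempty := by
    refine ⟨fun _ => 0, ?_⟩
    rw [ht, Fintype.mem_piFinset]
    exact fun _ => mem_range.2 hQpos
  set R : ℝ := (t.card : ℝ) with hR
  have hRpos : 0 < R := by rw [hR]; exact_mod_cast htne.card_pos
  set δ : ℝ := 1 / (4 * R) with hδ
  have hδpos : 0 < δ := by positivity
  obtain ⟨N0, hN0⟩ := Pool.Agent.H362R2.CM.box_lemma T K δ hδpos
  refine ⟨max N0 (4 * T ^ 2) + 1, Nat.le_add_left _ _, ?_⟩
  intro q P₀ Good V hbox hVN hVadm
  have hV0 : N0 ≤ V.card := (le_max_left N0 (4 * T ^ 2)).trans ((Nat.le_succ _).trans hVN)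
  have hV1 : 4 * T ^ 2 ≤ V.card := (le_max_right N0 (4 * T ^ 2)).trans ((Nat.le_succ _).trans hVN)
  have hVpos : 0 < V.card := by omega
  set P : ℝ := (V.card : ℝ) ^ T with hP
  have hPpos : 0 < P := by positivity
  by_contra hcon'
  have hcon := not_le.1 hcon'
  set Bad := (Fintype.piFinset (fun _ : Fin T => V)).filter (fun f => ¬ HitG P₀ Good f) with hBad
  set Bad' := Bad.filter (fun f => Function.Injective f) with hBad'
  -- the non injective tuples
  have hni : ((((Fintype.piFinset (fun _ : Fin T => V)).filter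
      (fun φ => ¬ Function.Injective φ)).card : ℕ) : ℝ) ≤ 1 / 4 * P := by
    have hone : ∀ x : Fin T × Fin T, x.1 ≠ x.2 →
        ((Fintype.piFinset (fun _ : Fin T => V)).filter (fun φ => φ x.1 = φ x.2)).card * V.card ≤
          V.card ^ T := by
      intro x hx
      have h1 : (((Fintype.piFinset (fun _ : Fin T => V)).filter (fun φ => φ x.1 = φ x.2)) ×ˢ V).card ≤
          (Fintype.piFinset (fun _ : Fin T => V)).card := by
        apply Finset.card_le_card_of_injOn (fun y => Function.update y.1 x.1 y.2)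
        · intro y hy
          simp only [coe_product, Set.mem_prod, mem_coe, mem_filter, Fintype.mem_piFinset] at hy
          simp only [mem_coe, Fintype.mem_piFinset]
          intro i
          by_cases hi : i = x.1
          · subst hi; simp only [Function.update_self]; exact hy.2
          · rw [Function.update_of_ne hi]; exact hy.1.1 i
        · intro y hy z hz hyz
          simp only [coe_product, Set.mem_prod, mem_coe, mem_filter] at hy hz
          have e1 : y.2 = z.2 := by
            have := congrFun hyz x.1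
            simpa using this
          have e2 : y.1 = z.1 := by
            funext i
            by_cases hi : i = x.1
            · subst hi
              rw [hy.1.2, hz.1.2]
              have := congrFun hyz x.2
              simp only [Function.update_of_ne hx.symm] at this
              exact this
            · have := congrFun hyz i
              simpa only [Function.update_of_ne hi] using this
          exact Prod.ext e2 e1
      rw [card_product, Fintype.card_piFinset] at h1
      simpa using h1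
    have hsub : (Fintype.piFinset (fun _ : Fin T => V)).filter (fun φ => ¬ Function.Injective φ) ⊆
        (univ : Finset (Fin T × Fin T)).biUnion (fun x =>
          if x.1 ≠ x.2 then (Fintype.piFinset (fun _ : Fin T => V)).filter (fun φ => φ x.1 = φ x.2)
          else ∅) := by
      intro φ hφ
      rw [mem_filter] at hφ
      obtain ⟨h1, h2⟩ := hφ
      rw [Function.Injective] at h2
      push Not at h2
      obtain ⟨i, j, hij, hne⟩ := h2
      rw [mem_biUnion]
      refine ⟨(i, j), mem_univ _, ?_⟩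
      simp only [ne_eq, hne, not_false_eq_true, if_true, mem_filter]
      exact ⟨h1, hij⟩
    have hnat : ((Fintype.piFinset (fun _ : Fin T => V)).filter
        (fun φ => ¬ Function.Injective φ)).card * V.card ≤ T ^ 2 * V.card ^ T := by
      calc _ ≤ (∑ x : Fin T × Fin T, (if x.1 ≠ x.2 then
            (Fintype.piFinset (fun _ : Fin T => V)).filter (fun φ => φ x.1 = φ x.2)
            else ∅).card) * V.card :=
            Nat.mul_le_mul_right _ ((card_le_card hsub).trans card_biUnion_le)
        _ = ∑ x : Fin T × Fin T, (if x.1 ≠ x.2 then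
            (Fintype.piFinset (fun _ : Fin T => V)).filter (fun φ => φ x.1 = φ x.2)
            else ∅).card * V.card := by rw [Finset.sum_mul]
        _ ≤ ∑ x : Fin T × Fin T, V.card ^ T := by
            apply Finset.sum_le_sum
            intro x _
            split_ifs with h
            · exact hone x h
            · simp
        _ = T ^ 2 * V.card ^ T := by
            rw [Finset.sum_const, card_univ, Fintype.card_prod, Fintype.card_fin, smul_eq_mul]
            ring
    set n₁ := ((Fintype.piFinset (fun _ : Fin T => V)).filter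
        (fun φ => ¬ Function.Injective φ)).card with hn₁
    have h2 : 4 * n₁ ≤ V.card ^ T := by
      by_contra hc
      push Not at hc
      have h3 : V.card ^ T * V.card < 4 * n₁ * V.card := Nat.mul_lt_mul_of_pos_right hc hVpos
      have h4 : 4 * n₁ * V.card ≤ 4 * (T ^ 2 * V.card ^ T) := by
        calc 4 * n₁ * V.card = 4 * (n₁ * V.card) := by ring
          _ ≤ _ := Nat.mul_le_mul_left _ hnat
      have h5 : 4 * (T ^ 2 * V.card ^ T) = V.card ^ T * (4 * T ^ 2) := by ring
      have h6 : V.card ^ T * (4 * T ^ 2) ≤ V.card ^ T * V.card := Nat.mul_le_mul_left _ hV1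
      omega
    have h3 : (4 * (n₁ : ℝ)) ≤ P := by
      rw [hP]
      exact_mod_cast h2
    linarith
  have hBad'card : 1 / 4 * P ≤ (Bad'.card : ℝ) := by
    have h1 : Bad.card = Bad'.card + (Bad.filter (fun f => ¬ Function.Injective f)).card := by
      rw [hBad']
      exact (Finset.card_filter_add_card_filter_not _).symm
    have h2 : (Bad.filter (fun f => ¬ Function.Injective f)).card ≤
        ((Fintype.piFinset (fun _ : Fin T => V)).filter (fun φ => ¬ Function.Injective φ)).card := by
      apply card_le_card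
      apply Finset.filter_subset_filter
      exact Finset.filter_subset _ _
    have h1' : (Bad.card : ℝ) = Bad'.card + (Bad.filter (fun f => ¬ Function.Injective f)).card := by
      exact_mod_cast h1
    have h2' : ((Bad.filter (fun f => ¬ Function.Injective f)).card : ℝ) ≤
        (((Fintype.piFinset (fun _ : Fin T => V)).filter
          (fun φ => ¬ Function.Injective φ)).card : ℝ) := by
      exact_mod_cast h2
    linarith
  -- pigeonhole on residues
  set res : (Fin T → ℕ) → (Fin T → ℕ) := fun f i => f i % Q with hres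
  have hmaps : ∀ f ∈ Bad', res f ∈ t := by
    intro f _
    rw [ht, Fintype.mem_piFinset]
    intro i
    exact mem_range.2 (Nat.mod_lt _ hQpos)
  obtain ⟨ρ, _, hρ⟩ := Finset.exists_le_card_fiber_of_nsmul_le_card_of_maps_to hmaps htne
    (b := δ * P) (by
      rw [nsmul_eq_mul, ← hR]
      calc R * (δ * P) = 1 / 4 * P := by rw [hδ]; field_simp
        _ ≤ _ := hBad'card)
  set B := Bad'.filter (fun f => res f = ρ) with hB
  have hBmem : ∀ f ∈ B, (∀ i, f i ∈ V) ∧ ¬ HitG P₀ Good f ∧ Function.Injective f ∧ res f = ρ := by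
    intro f hf
    rw [hB, mem_filter, hBad', mem_filter, hBad, mem_filter, Fintype.mem_piFinset] at hf
    exact ⟨hf.1.1.1, hf.1.1.2, hf.1.2, hf.2⟩
  have hBW : B ⊆ Fintype.piFinset (fun _ : Fin T => V) := by
    intro f hf
    rw [Fintype.mem_piFinset]
    exact (hBmem f hf).1
  obtain ⟨A, hA1, hA2⟩ := hN0 ℕ (fun _ => V) (fun _ => hV0) B hBW (by
    rw [prod_const, card_univ, Fintype.card_fin]
    exact hρ)
  have hK0 : 0 < K := by omega
  set h : ℕ → ℕ := fun x => if hx : x < T * K then
    A ⟨x / K, (Nat.div_lt_iff_lt_mul hK0).2 hx⟩ ⟨x % K, Nat.mod_lt _ hK0⟩ else 0 with hh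
  have hhx : ∀ x (hx : x < T * K), h x =
      A ⟨x / K, (Nat.div_lt_iff_lt_mul hK0).2 hx⟩ ⟨x % K, Nat.mod_lt _ hK0⟩ := by
    intro x hx
    simp only [hh, dif_pos hx]
  have hhV : ∀ x < T * K, h x ∈ V := by
    intro x hx
    rw [hhx x hx]
    exact (hBmem _ (hA2 (fun _ => ⟨x % K, Nat.mod_lt _ hK0⟩))).1 _
  have hhinj : ∀ x < T * K, ∀ y < T * K, h x = h y → x = y := by
    intro x hx y hy e
    rw [hhx x hx, hhx y hy] at e
    by_cases hxy : x / K = y / K
    · have e1 : (⟨x / K, (Nat.div_lt_iff_lt_mul hK0).2 hx⟩ : Fin T) =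
          ⟨y / K, (Nat.div_lt_iff_lt_mul hK0).2 hy⟩ := Fin.ext hxy
      rw [e1] at e
      have e2 := congrArg Fin.val (hA1 _ e)
      simp only at e2
      have hx2 := Nat.div_add_mod x K
      have hy2 := Nat.div_add_mod y K
      rw [hxy, e2, hy2] at hx2
      exact hx2.symm
    · exfalso
      set gx : Fin T := ⟨x / K, (Nat.div_lt_iff_lt_mul hK0).2 hx⟩ with hgx
      set gy : Fin T := ⟨y / K, (Nat.div_lt_iff_lt_mul hK0).2 hy⟩ with hgy
      have hne : gx ≠ gy := fun h => hxy (congrArg Fin.val h)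
      have h1 := (hBmem _ (hA2 (Function.update (fun _ => ⟨x % K, Nat.mod_lt _ hK0⟩) gy
        ⟨y % K, Nat.mod_lt _ hK0⟩))).2.2.1
      apply hne
      apply h1
      simp only [Function.update_self, Function.update_of_ne hne]
      exact e
  have hhres : ∀ x < T * K, ∀ y < T * K, x / K = y / K → h x % Q = h y % Q := by
    intro x hx y hy e
    rw [hhx x hx, hhx y hy]
    have e1 : (⟨x / K, (Nat.div_lt_iff_lt_mul hK0).2 hx⟩ : Fin T) =
        ⟨y / K, (Nat.div_lt_iff_lt_mul hK0).2 hy⟩ := Fin.ext e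
    rw [e1]
    have h1 := congrFun (hBmem _ (hA2 (fun _ => ⟨x % K, Nat.mod_lt _ hK0⟩))).2.2.2
      ⟨y / K, (Nat.div_lt_iff_lt_mul hK0).2 hy⟩
    have h2 := congrFun (hBmem _ (hA2 (fun _ => ⟨y % K, Nat.mod_lt _ hK0⟩))).2.2.2
      ⟨y / K, (Nat.div_lt_iff_lt_mul hK0).2 hy⟩
    rw [← h2] at h1
    exact h1
  obtain ⟨I, hI1, hI2, hI3, hI4⟩ := hbox h hhV hhinj (by
    intro p hp hpq
    by_cases hpT : p ≤ T
    · obtain ⟨b, hb⟩ := hVadm p hp hpT hpq
      exact ⟨b, fun x hx => hb _ (hhV x hx)⟩
    · push Not at hpT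
      by_cases hpk : p ≤ T * K
      · -- the residues of the classes
        obtain ⟨b, hb⟩ := avoid hp ((range T).image (fun g => ((h (g * K) : ℕ) : ZMod p)))
          ((card_image_le.trans_eq (card_range _)).trans_lt hpT)
        refine ⟨b, fun x hx => hb _ ?_⟩
        have hg : x / K < T := (Nat.div_lt_iff_lt_mul hK0).2 hx
        rw [mem_image]
        refine ⟨x / K, mem_range.2 hg, ?_⟩
        have h2 : x / K * K < T * K := Nat.mul_lt_mul_of_pos_right hg hK0
        have h3 := hhres (x / K * K) h2 x hx (Nat.mul_div_cancel _ hK0)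
        have hpQ : p ∣ Q := (hp.dvd_factorial).2 hpk
        rw [ZMod.natCast_eq_natCast_iff]
        exact Nat.ModEq.of_dvd hpQ h3
      · push Not at hpk
        obtain ⟨b, hb⟩ := avoid hp ((range (T * K)).image (fun x => ((h x : ℕ) : ZMod p)))
          ((card_image_le.trans_eq (card_range _)).trans_lt hpk)
        exact ⟨b, fun x hx => hb _ (mem_image.2 ⟨x, mem_range.2 hx, rfl⟩)⟩)
  -- the transversal
  have hsel : ∀ g : Fin T, ∃ c : Fin K, ∀ x ∈ I, x / K = g → x % K = c := by
    intro g
    by_cases hg : ∃ x ∈ I, x / K = g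
    · obtain ⟨x, hx, hxg⟩ := hg
      refine ⟨⟨x % K, Nat.mod_lt _ hK0⟩, fun y hy hyg => ?_⟩
      rw [hI3 y hy x hx (hyg.trans hxg.symm)]
    · exact ⟨⟨0, hK0⟩, fun x hx hxg => absurd ⟨x, hx, hxg⟩ hg⟩
  choose c hc using hsel
  have hfB := hBmem _ (hA2 c)
  apply hfB.2.1
  have hgT : ∀ x ∈ I, x / K < T := fun x hx => (Nat.div_lt_iff_lt_mul hK0).2 (hI1 x hx)
  have hval : ∀ x (hx : x ∈ I), A ⟨x / K, hgT x hx⟩ (c ⟨x / K, hgT x hx⟩) = h x := by
    intro x hx
    rw [hhx x (hI1 x hx)]
    congr 1
    apply Fin.ext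
    exact (hc ⟨x / K, hgT x hx⟩ x hx rfl).symm
  refine ⟨I.attach.image (fun x => ⟨x.1 / K, hgT x.1 x.2⟩), ?_, hfB.2.2.1.injOn, ?_⟩
  · rw [card_image_of_injective, card_attach]
    · exact hI2
    intro x y hxy
    exact Subtype.ext (hI3 x.1 x.2 y.1 y.2 (congrArg Fin.val hxy))
  · have e : (I.attach.image (fun x => (⟨x.1 / K, hgT x.1 x.2⟩ : Fin T))).image
        (fun i => A i (c i)) = I.image h := by
      ext y
      simp only [mem_image, mem_attach, true_and, Subtype.exists]
      constructor
      · rintro ⟨_, ⟨x, hx, rfl⟩, rfl⟩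
        exact ⟨x, hx, (hval x hx).symm⟩
      · rintro ⟨x, hx, rfl⟩
        exact ⟨_, ⟨x, hx, rfl⟩, hval x hx⟩
    rw [e]
    exact hI4

end Pool.Agent.J6H13.RW
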