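import Mathlib
import Pool.Agent.Helper256.KM.Mertens

/-! Densities (as in `Pool.Agent.J6H13.PR.Fin`). -/

set_option autoImplicit false

namespace Pool.Agent.J6H13.RW

open Finset

/-- the density of the integers which are divisible by no prime `p ≤ k` with `p ∤ q` -/
noncomputable def dens (k q : ℕ) : ℝ :=
  ∏ p ∈ (range (k + 1)).filter (fun p => p.Prime ∧ ¬ p ∣ q), (1 - 1 / (p : ℝ))

theorem fac_pos {p : ℕ} (hp : p.Prime) : 0 < 1 - 1 / (p : ℝ) := by
  have : (1 : ℝ) < p := by exact_mod_cast hp.one_lt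
  rw [sub_pos, div_lt_one (by linarith)]
  exact this

theorem fac_le_one (p : ℕ) : 1 - 1 / (p : ℝ) ≤ 1 := by
  have : (0 : ℝ) ≤ 1 / (p : ℝ) := by positivity
  linarith

theorem dens_pos (k q : ℕ) : 0 < dens k q :=
  prod_pos (fun _ hp => fac_pos (mem_filter.1 hp).2.1)

theorem sieve (F : Finset ℕ) : (∀ p ∈ F, p.Prime) → ∀ V : Finset ℕ,
    ∃ V' ⊆ V, (∀ p ∈ F, ∃ b : ℕ, ∀ x ∈ V', ¬ p ∣ b + x) ∧
      (∏ p ∈ F, (1 - 1 / (p : ℝ))) * (V.card : ℝ) ≤ (V'.card : ℝ) := by
  classical
  induction F using Finset.induction_on with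
  | empty =>
    intro _ V
    exact ⟨V, Subset.refl _, by simp, by simp⟩
  | insert p F hpF ih =>
    intro hF V
    obtain ⟨V1, hV1, h1, h2⟩ := ih (fun p' hp' => hF p' (mem_insert_of_mem hp')) V
    have hp : p.Prime := hF p (mem_insert_self _ _)
    have : Fact p.Prime := ⟨hp⟩
    have hp0 : (0 : ℝ) < p := by exact_mod_cast hp.pos
    obtain ⟨c, -, hc⟩ := Finset.exists_card_fiber_le_of_card_le_nsmul (s := V1)
      (t := (univ : Finset (ZMod p))) (f := fun x : ℕ => (x : ZMod p)) (b := (V1.card : ℝ) / p)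
      univ_nonempty (by
        rw [card_univ, ZMod.card, nsmul_eq_mul]
        field_simp
        exact le_rfl)
    refine ⟨V1.filter (fun x => ¬ (x : ZMod p) = c), (filter_subset _ _).trans hV1, ?_, ?_⟩
    · intro p' hp'
      rw [mem_insert] at hp'
      rcases hp' with rfl | hp'
      · refine ⟨(-c).val, fun x hx hd => (mem_filter.1 hx).2 ?_⟩
        rw [← ZMod.natCast_eq_zero_iff] at hd
        push_cast at hd
        rw [ZMod.natCast_zmod_val] at hd
        linear_combination hd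
      · obtain ⟨b, hb⟩ := h1 p' hp'
        exact ⟨b, fun x hx => hb x (mem_filter.1 hx).1⟩
    · rw [prod_insert hpF]
      have h3 := card_filter_add_card_filter_not (s := V1) (fun x : ℕ => (x : ZMod p) = c)
      have h4 : ((V1.filter (fun x : ℕ => (x : ZMod p) = c)).card : ℝ) +
          ((V1.filter (fun x : ℕ => ¬ (x : ZMod p) = c)).card : ℝ) = V1.card := by exact_mod_cast h3
      have h5 : (1 - 1 / (p : ℝ)) * (V1.card : ℝ) ≤
          ((V1.filter (fun x : ℕ => ¬ (x : ZMod p) = c)).card : ℝ) := by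
        have h6 : (1 - 1 / (p : ℝ)) * (V1.card : ℝ) = V1.card - V1.card / p := by ring
        rw [h6]
        linarith
      calc (1 - 1 / (p : ℝ)) * (∏ p ∈ F, (1 - 1 / (p : ℝ))) * (V.card : ℝ)
          = (1 - 1 / (p : ℝ)) * ((∏ p ∈ F, (1 - 1 / (p : ℝ))) * (V.card : ℝ)) := by ring
        _ ≤ (1 - 1 / (p : ℝ)) * (V1.card : ℝ) :=
            mul_le_mul_of_nonneg_left h2 (fac_pos hp).le
        _ ≤ _ := h5

/-! ### Mertens -/

theorem fac_ge_exp {p : ℕ} (hp : p.Prime) :
    Real.exp (-(1 / (p : ℝ) + (1 / ((p : ℝ) - 1) - 1 / (p : ℝ)))) ≤ 1 - 1 / (p : ℝ) := by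
  have hp1 : (1 : ℝ) < p := by exact_mod_cast hp.one_lt
  have hp0 : (0 : ℝ) < (p : ℝ) - 1 := by linarith
  have h1 : 1 / (p : ℝ) + (1 / ((p : ℝ) - 1) - 1 / (p : ℝ)) = 1 / ((p : ℝ) - 1) := by ring
  rw [h1, Real.exp_neg]
  have h2 : (1 : ℝ) + 1 / ((p : ℝ) - 1) ≤ Real.exp (1 / ((p : ℝ) - 1)) := by
    have := Real.add_one_le_exp (1 / ((p : ℝ) - 1))
    linarith
  have h3 : (1 : ℝ) + 1 / ((p : ℝ) - 1) = (1 - 1 / (p : ℝ))⁻¹ := by
    field_simp
    ring
  rw [h3] at h2
  exact inv_le_of_inv_le₀ (fac_pos hp) h2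

theorem fac_ge_exp2 {p : ℕ} (hp : p.Prime) : Real.exp (-(2 * (1 / (p : ℝ)))) ≤ 1 - 1 / (p : ℝ) := by
  refine le_trans (Real.exp_le_exp.2 ?_) (fac_ge_exp hp)
  have hp1 : (2 : ℝ) ≤ p := by exact_mod_cast hp.two_le
  have h1 : 1 / ((p : ℝ) - 1) ≤ 2 * (1 / (p : ℝ)) := by
    rw [div_le_iff₀ (by linarith)]
    have : 2 * (1 / (p : ℝ)) * ((p : ℝ) - 1) = 2 * (1 - 1 / (p : ℝ)) := by
      field_simp
    rw [this]
    have : 1 / (p : ℝ) ≤ 1 / 2 := one_div_le_one_div_of_le (by norm_num) hp1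
    linarith
  linarith

theorem mert_ratio (A : ℕ) : ∃ c : ℝ, 0 < c ∧ ∀ k T : ℕ, 1 ≤ k → T ≤ A * k ^ 2 →
    c ≤ ∏ p ∈ (Ioc k T).filter Nat.Prime, (1 - 1 / (p : ℝ)) := by
  obtain ⟨C, hC⟩ := Pool.Agent.Helper256.KM.mertens_inv
  have hC0 : 0 ≤ C := (abs_nonneg _).trans (hC 3 le_rfl)
  have hA0 : (0 : ℝ) ≤ A := Nat.cast_nonneg _
  refine ⟨Real.exp (-(2 * (4 * A + Real.log (A + 2) + 2 * C))), Real.exp_pos _, fun k T hk hT => ?_⟩
  have hsum : ∑ p ∈ (Ioc k T).filter Nat.Prime, 1 / (p : ℝ) ≤ 4 * A + Real.log (A + 2) + 2 * C := by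
    have hlogA : 0 ≤ Real.log ((A : ℝ) + 2) := Real.log_nonneg (by linarith)
    by_cases hk3 : k < 3
    · have h1 : T ≤ A * 4 := by
        have : k ^ 2 ≤ 2 ^ 2 := Nat.pow_le_pow_left (by omega) 2
        exact hT.trans (Nat.mul_le_mul_left _ this)
      have h2 : ∑ p ∈ (Ioc k T).filter Nat.Prime, 1 / (p : ℝ) ≤
          ∑ _p ∈ (Ioc k T).filter Nat.Prime, (1 : ℝ) := by
        apply sum_le_sum
        intro p hp
        have : (1 : ℝ) ≤ p := by exact_mod_cast (mem_filter.1 hp).2.one_lt.le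
        rw [div_le_one (by linarith)]
        exact this
      have h3 : (((Ioc k T).filter Nat.Prime).card : ℝ) ≤ A * 4 := by
        have := (card_filter_le (Ioc k T) Nat.Prime).trans (by rw [Nat.card_Ioc]; omega : _ ≤ A * 4)
        exact_mod_cast this
      rw [sum_const, nsmul_eq_mul, mul_one] at h2
      linarith
    · push Not at hk3
      by_cases hkT : k ≤ T
      · have hT3 : 3 ≤ T := hk3.trans hkT
        have h1 := (abs_le.1 (hC k hk3)).1
        have h2 := (abs_le.1 (hC T hT3)).2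
        have hsplit : ∑ p ∈ (Icc 1 T).filter Nat.Prime, (1 : ℝ) / p =
            ∑ p ∈ (Icc 1 k).filter Nat.Prime, (1 : ℝ) / p + ∑ p ∈ (Ioc k T).filter Nat.Prime, 1 / (p : ℝ) := by
          rw [← sum_union]
          · congr 1
            rw [← filter_union]
            congr 1
            ext x
            simp only [mem_union, mem_Icc, mem_Ioc]
            omega
          · rw [disjoint_left]
            intro x hx hx'
            rw [mem_filter, mem_Icc] at hx
            rw [mem_filter, mem_Ioc] at hx'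
            omega
        rw [hsplit] at h2
        have hk3' : (3 : ℝ) ≤ k := by exact_mod_cast hk3
        have hlogk1 : (1 : ℝ) < Real.log k := by
          rw [Real.lt_log_iff_exp_lt (by linarith)]
          linarith [Real.exp_one_lt_d9]
        have hlogT : Real.log T ≤ (A + 2) * Real.log k := by
          have hT' : (T : ℝ) ≤ A * (k : ℝ) ^ 2 := by exact_mod_cast hT
          have h3 : (A : ℝ) ≤ (k : ℝ) ^ A := by
            have h5 : A < k ^ A := Nat.lt_pow_self (by omega)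
            exact_mod_cast h5.le
          have h4 : (T : ℝ) ≤ (k : ℝ) ^ (A + 2) := by
            calc (T : ℝ) ≤ A * (k : ℝ) ^ 2 := hT'
              _ ≤ (k : ℝ) ^ A * (k : ℝ) ^ 2 := by gcongr
              _ = _ := by ring
          calc Real.log T ≤ Real.log ((k : ℝ) ^ (A + 2)) :=
                Real.log_le_log (by exact_mod_cast (by omega : 0 < T)) h4
            _ = _ := by rw [Real.log_pow]; push_cast; ring
        have hlogT0 : 0 < Real.log T := Real.log_pos (by exact_mod_cast (by omega : 1 < T))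
        have h5 : Real.log (Real.log T) ≤ Real.log ((A : ℝ) + 2) + Real.log (Real.log k) := by
          rw [← Real.log_mul (by linarith) (by linarith)]
          exact Real.log_le_log hlogT0 hlogT
        linarith
      · have : (Ioc k T) = ∅ := Ioc_eq_empty (by omega)
        rw [this, filter_empty, sum_empty]
        linarith
  calc Real.exp (-(2 * (4 * A + Real.log (A + 2) + 2 * C)))
      ≤ Real.exp (∑ p ∈ (Ioc k T).filter Nat.Prime, (-(2 * (1 / (p : ℝ))))) := by
        apply Real.exp_le_exp.2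
        rw [sum_neg_distrib, ← mul_sum]
        linarith
    _ = ∏ p ∈ (Ioc k T).filter Nat.Prime, Real.exp (-(2 * (1 / (p : ℝ)))) := Real.exp_sum _ _
    _ ≤ _ := prod_le_prod (fun _ _ => (Real.exp_pos _).le)
        (fun p hp => fac_ge_exp2 (mem_filter.1 hp).2)

theorem dens_ratio (A : ℕ) : ∃ c : ℝ, 0 < c ∧ ∀ k T q : ℕ, 1 ≤ k → k ≤ T → T ≤ A * k ^ 2 →
    c * dens k q ≤ dens T q := by
  obtain ⟨c, hc, h⟩ := mert_ratio A
  refine ⟨c, hc, fun k T q hk hkT hT => ?_⟩
  have h1 := h k T hk hT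
  have h2 : dens T q = (∏ p ∈ (Ioc k T).filter (fun p => p.Prime ∧ ¬ p ∣ q), (1 - 1 / (p : ℝ))) *
      dens k q := by
    unfold dens
    rw [← prod_union]
    · congr 1
      rw [← filter_union]
      congr 1
      ext x
      simp only [mem_union, mem_range, mem_Ioc]
      omega
    · rw [disjoint_left]
      intro x hx hx'
      rw [mem_filter, mem_Ioc] at hx
      rw [mem_filter, mem_range] at hx'
      omega
  rw [h2]
  apply mul_le_mul_of_nonneg_right _ (dens_pos k q).le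
  refine h1.trans ?_
  rw [← prod_sdiff (s₁ := (Ioc k T).filter (fun p => p.Prime ∧ ¬ p ∣ q))
    (s₂ := (Ioc k T).filter Nat.Prime) (by
      intro p hp
      rw [mem_filter] at hp ⊢
      exact ⟨hp.1, hp.2.1⟩)]
  apply mul_le_of_le_one_left
  · exact (prod_pos (fun p hp => fac_pos (mem_filter.1 hp).2.1)).le
  · exact prod_le_one (fun p hp => (fac_pos (mem_filter.1 (mem_sdiff.1 hp).1).2).le)
      (fun p _ => fac_le_one p)

end Pool.Agent.J6H13.RW
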