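import Pool.Agent.H362R2.RQ.Pair2

set_option autoImplicit false

/-! The detector with arbitrary weights of the pairs. -/

open Finset Filter

namespace Pool.Agent.J6H13.RW

/-- the detector -/
noncomputable def QW {K : ℕ} (w : Fin K → Fin K → ℝ) (θ : Fin K → ℝ) : ℝ :=
  ∑ i, θ i - ∑ i, ∑ j ∈ univ.filter (fun j => i ≠ j), w i j * (θ i * θ j)

theorem QW_le_sum {K : ℕ} (w : Fin K → Fin K → ℝ) (hw : ∀ i j, 0 ≤ w i j)
    (θ : Fin K → ℝ) (h0 : ∀ i, 0 ≤ θ i) : QW w θ ≤ ∑ i, θ i := by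
  unfold QW
  have h1 : 0 ≤ ∑ i, ∑ j ∈ univ.filter (fun j => i ≠ j), w i j * (θ i * θ j) :=
    Finset.sum_nonneg fun i _ => Finset.sum_nonneg fun j _ => mul_nonneg (hw i j) (mul_nonneg (h0 i) (h0 j))
  linarith

/-- the detector is at most the penalised count -/
theorem QW_le {K : ℕ} (w : Fin K → Fin K → ℝ) (hw : ∀ i j, 0 ≤ w i j)
    (θ : Fin K → ℝ) (pr : Fin K → Prop) [DecidablePred pr]
    (h1 : ∀ i, pr i → 1 / 2 ≤ θ i) (h2 : ∀ i, pr i → θ i ≤ 1) (h3 : ∀ i, ¬ pr i → θ i = 0) :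
    QW (fun i j => 4 * w i j) θ ≤ ((univ.filter pr).card : ℝ) -
      ∑ i ∈ univ.filter pr, ∑ j ∈ univ.filter (fun j => pr j ∧ i ≠ j), w i j := by
  classical
  have hA : ∑ i, θ i ≤ ((univ.filter pr).card : ℝ) := by
    rw [card_filter]
    push_cast
    refine Finset.sum_le_sum fun i _ => ?_
    split_ifs with h
    · exact h2 i h
    · exact (h3 i h).le
  have hθ0 : ∀ i, 0 ≤ θ i := by
    intro i
    by_cases h : pr i
    · linarith [h1 i h]
    · exact (h3 i h).ge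
  have hB : ∑ i ∈ univ.filter pr, ∑ j ∈ univ.filter (fun j => pr j ∧ i ≠ j), w i j ≤
      ∑ i, ∑ j ∈ univ.filter (fun j => i ≠ j), 4 * w i j * (θ i * θ j) := by
    have hin : ∀ i, pr i → ∑ j ∈ univ.filter (fun j => pr j ∧ i ≠ j), w i j ≤
        ∑ j ∈ univ.filter (fun j => i ≠ j), 4 * w i j * (θ i * θ j) := by
      intro i hi
      have e1 : ∑ j ∈ univ.filter (fun j => pr j ∧ i ≠ j), w i j ≤
          ∑ j ∈ univ.filter (fun j => pr j ∧ i ≠ j), 4 * w i j * (θ i * θ j) := by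
        refine Finset.sum_le_sum fun j hj => ?_
        have hj1 := h1 j (mem_filter.1 hj).2.1
        have hi1 := h1 i hi
        have h4 : 1 / 4 ≤ θ i * θ j := by nlinarith
        have := mul_le_mul_of_nonneg_left h4 (hw i j)
        linarith
      refine e1.trans (Finset.sum_le_sum_of_subset_of_nonneg ?_ ?_)
      · intro j hj
        rw [mem_filter] at hj ⊢
        exact ⟨hj.1, hj.2.2⟩
      · intro j _ _
        exact mul_nonneg (mul_nonneg (by norm_num) (hw i j)) (mul_nonneg (hθ0 i) (hθ0 j))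
    refine (Finset.sum_le_sum fun i hi => hin i (mem_filter.1 hi).2).trans
      (Finset.sum_le_sum_of_subset_of_nonneg (filter_subset _ _) ?_)
    intro i _ _
    exact Finset.sum_nonneg fun j _ =>
      mul_nonneg (mul_nonneg (by norm_num) (hw i j)) (mul_nonneg (hθ0 i) (hθ0 j))
  unfold QW
  linarith

/-- weighted sum of the detector -/
theorem sum_QW {K : ℕ} (w : Fin K → Fin K → ℝ) (hw : ∀ i j, 0 ≤ w i j) (Om : ℝ)
    (hOm : ∑ i, ∑ j, w i j ≤ Om)
    (I : Finset ℕ) (Wn : ℕ → ℝ) (θ : ℕ → Fin K → ℝ) (LB UB : ℝ) (hUB : 0 ≤ UB)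
    (h1 : ∀ i, LB ≤ ∑ n ∈ I, Wn n * θ n i)
    (h2 : ∀ i j, i ≠ j → ∑ n ∈ I, Wn n * (θ n i * θ n j) ≤ UB) :
    K * LB - Om * UB ≤ ∑ n ∈ I, Wn n * QW w (θ n) := by
  classical
  have e1 : ∑ n ∈ I, Wn n * QW w (θ n) = ∑ i, ∑ n ∈ I, Wn n * θ n i -
      ∑ i, ∑ j ∈ univ.filter (fun j => i ≠ j), w i j * ∑ n ∈ I, Wn n * (θ n i * θ n j) := by
    have e2 : ∀ n, Wn n * QW w (θ n) = ∑ i, Wn n * θ n i -
        ∑ i, ∑ j ∈ univ.filter (fun j => i ≠ j), w i j * (Wn n * (θ n i * θ n j)) := by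
      intro n
      unfold QW
      rw [mul_sub, Finset.mul_sum]
      congr 1
      rw [Finset.mul_sum]
      refine Finset.sum_congr rfl fun i _ => ?_
      rw [Finset.mul_sum]
      refine Finset.sum_congr rfl fun j _ => ?_
      ring
    rw [Finset.sum_congr rfl (fun n _ => e2 n), Finset.sum_sub_distrib, Finset.sum_comm]
    congr 1
    rw [Finset.sum_comm]
    refine Finset.sum_congr rfl fun i _ => ?_
    rw [Finset.sum_comm]
    refine Finset.sum_congr rfl fun j _ => ?_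
    rw [Finset.mul_sum]
  rw [e1]
  have e3 : (K : ℝ) * LB ≤ ∑ i, ∑ n ∈ I, Wn n * θ n i := by
    have : (K : ℝ) * LB = ∑ _i : Fin K, LB := by
      rw [Finset.sum_const, Finset.card_univ, Fintype.card_fin, nsmul_eq_mul]
    rw [this]
    exact Finset.sum_le_sum fun i _ => h1 i
  have e4 : ∑ i, ∑ j ∈ univ.filter (fun j => i ≠ j), w i j * ∑ n ∈ I, Wn n * (θ n i * θ n j) ≤ Om * UB := by
    calc ∑ i, ∑ j ∈ univ.filter (fun j => i ≠ j), w i j * ∑ n ∈ I, Wn n * (θ n i * θ n j)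
        ≤ ∑ i, ∑ j ∈ univ.filter (fun j => i ≠ j), w i j * UB := by
          refine Finset.sum_le_sum fun i _ => Finset.sum_le_sum fun j hj => ?_
          exact mul_le_mul_of_nonneg_left (h2 i j (Finset.mem_filter.1 hj).2) (hw i j)
      _ ≤ ∑ i, ∑ j, w i j * UB := by
          refine Finset.sum_le_sum fun i _ =>
            Finset.sum_le_sum_of_subset_of_nonneg (filter_subset _ _) fun j _ _ => mul_nonneg (hw i j) hUB
      _ = (∑ i, ∑ j, w i j) * UB := by
          rw [Finset.sum_mul]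
          refine Finset.sum_congr rfl fun i _ => ?_
          rw [Finset.sum_mul]
      _ ≤ _ := mul_le_mul_of_nonneg_right hOm hUB
  linarith

end Pool.Agent.J6H13.RW
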