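import Mathlib
import Pool.Agent.H362R2.RQ.Comb
import Pool.Agent.J6H13.RL.Comb

set_option autoImplicit false

/-! The final combination. -/

namespace Pool.Agent.J6H13.RW

open Pool.Agent.H362R2.RQ
open Pool.Agent.J6H13.RL (c0 c0_pos)

/-- the final combination -/
theorem combineRW (Mm sK sJ s b g Z K Om S1v Qv Tv Bv LB UB E1 E2 E3 E4 M₂ : ℝ)
    (hMm : 0 < Mm) (hs : 0 < s) (hb : 1 ≤ b) (hg : 0 < g) (hsK : 0 < sK) (hsJ : sJ * s = sK * b ^ 2)
    (hZ : 1 ≤ Z) (hK : 0 < K) (hOm0 : 0 ≤ Om)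
    (hml : 16 * g * Om * b ≤ kap * K ^ 2)
    (hy1 : K * b ^ 2 / s ≤ b / (4 * g)) (hy2 : b / (16 * g) ≤ K * b ^ 2 / s)
    (hLB : LB = kap * (Z * Mm * sJ) - E2)
    (hUB : UB = Z * (Mm * (2 * (sK * (4 * g * b ^ 2 / s) ^ 2))) + E1)
    (H1 : S1v ≤ Z * (Mm * (2 * sK)) + E1) (H2 : K * LB - Om * UB ≤ Qv)
    (H3 : Tv ≤ M₂ * (Mm * (2 * sK)) + E3) (H4 : Bv ≤ E4)
    (hE : K * E2 + Om * E1 + c0 g * b * E1 + K * E3 + K * E4 ≤ c0 g * (Z * Mm * sK))
    (hM₂ : K * M₂ ≤ c0 g * Z) :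
    0 < Qv - c0 g * b * S1v - K * Tv - K * Bv := by
  set P := Z * Mm * sK with hP
  have hb0 : 0 < b := by linarith
  have hkap := kap_pos
  have hPpos : 0 < P := by rw [hP]; positivity
  have hη := c0_pos g hg
  set y := K * b ^ 2 / s with hy
  have hypos : 0 < y := by rw [hy]; positivity
  have e1 : K * LB = kap * y * P - K * E2 := by
    have h1 : sJ = sK * b ^ 2 / s := by
      rw [eq_div_iff hs.ne']
      exact hsJ
    rw [hLB, hP, h1, hy]
    ring
  have e2 : Om * UB = (32 * Om * g ^ 2 * y ^ 2 / K ^ 2) * P + Om * E1 := by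
    have hUB2 : UB = 32 * g ^ 2 * b ^ 4 / s ^ 2 * P + E1 := by
      rw [hUB, hP]
      field_simp
      ring
    rw [hUB2, mul_add]
    congr 1
    rw [hy]
    field_simp
    try ring
  have e3 : 32 * Om * g ^ 2 * y ^ 2 / K ^ 2 ≤ kap * y / 2 := by
    rw [div_le_iff₀ (by positivity)]
    have h1 : y * g ≤ b / 4 := by
      calc y * g ≤ b / (4 * g) * g := mul_le_mul_of_nonneg_right hy1 hg.le
        _ = b / 4 := by field_simp
    calc 32 * Om * g ^ 2 * y ^ 2 = 32 * Om * g * y * (y * g) := by ring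
      _ ≤ 32 * Om * g * y * (b / 4) := mul_le_mul_of_nonneg_left h1 (by positivity)
      _ = y / 2 * (16 * g * Om * b) := by ring
      _ ≤ y / 2 * (kap * K ^ 2) := mul_le_mul_of_nonneg_left hml (by positivity)
      _ = _ := by ring
  have e4 : 8 * (c0 g * b) ≤ kap * y / 2 := by
    unfold c0
    have h1 : kap * (b / (16 * g)) ≤ kap * y := mul_le_mul_of_nonneg_left hy2 hkap.le
    calc 8 * (kap / (256 * g) * b) = kap * (b / (16 * g)) / 2 := by field_simp; norm_num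
      _ ≤ _ := by linarith
  have h1 : 8 * (c0 g * b) * P - K * E2 - Om * E1 ≤ Qv := by
    refine le_trans ?_ H2
    rw [e1, e2]
    have h2 : (8 * (c0 g * b) + 32 * Om * g ^ 2 * y ^ 2 / K ^ 2) * P ≤ kap * y * P := by
      apply mul_le_mul_of_nonneg_right _ hPpos.le
      linarith
    have h3 : (8 * (c0 g * b) + 32 * Om * g ^ 2 * y ^ 2 / K ^ 2) * P =
        8 * (c0 g * b) * P + (32 * Om * g ^ 2 * y ^ 2 / K ^ 2) * P := by ring
    linarith
  have hcb : 0 < c0 g * b := by positivity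
  have h2 : c0 g * b * S1v ≤ 2 * (c0 g * b * P) + c0 g * b * E1 := by
    have := mul_le_mul_of_nonneg_left H1 hcb.le
    refine this.trans (le_of_eq ?_)
    rw [hP]; ring
  have h3 : K * Tv ≤ 2 * (c0 g * P) + K * E3 := by
    have h4 := mul_le_mul_of_nonneg_left H3 hK.le
    have h5 : K * M₂ * (Mm * (2 * sK)) ≤ c0 g * Z * (Mm * (2 * sK)) :=
      mul_le_mul_of_nonneg_right hM₂ (by positivity)
    calc K * Tv ≤ K * (M₂ * (Mm * (2 * sK)) + E3) := h4
      _ = K * M₂ * (Mm * (2 * sK)) + K * E3 := by ring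
      _ ≤ c0 g * Z * (Mm * (2 * sK)) + K * E3 := by linarith
      _ = _ := by rw [hP]; ring
  have h4 : K * Bv ≤ K * E4 := mul_le_mul_of_nonneg_left H4 hK.le
  have h5 : c0 g * P ≤ c0 g * b * P := by
    have : c0 g * P * 1 ≤ c0 g * P * b := mul_le_mul_of_nonneg_left hb (by positivity)
    linarith
  have h6 : 0 < c0 g * P := by positivity
  have h7 : 8 * (c0 g * b) * P = 8 * (c0 g * b * P) := by ring
  rw [h7] at h1
  linarith

end Pool.Agent.J6H13.RW
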