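import Pool.Agent.J6H13.RW.IsoX
import Pool.Agent.J6H13.RW.CntV
import Pool.Agent.J6H13.RW.Dens

/-! Assembly. -/

set_option autoImplicit false

namespace Pool.Agent.J6H13.RW

open Finset

open Classical in
theorem main_ofX (h : StRW) : ∃ (c : ℝ) (C : ℕ), 0 < c ∧ ∀ k : ℕ, 1 ≤ k → ∃ (N : ℕ) (δ : ℝ), 0 < δ ∧
    ∀ q a : ℕ, Squarefree q → a.Coprime q → ∀ V : Finset ℕ, N ≤ V.card → ∃ X₀ : ℝ, ∀ X : ℝ, X₀ ≤ X →
      ∃ s : ℕ, k ≤ s ∧ s ≤ C * k ∧ (c * dens s q / s) ^ s * ((V.card).choose s : ℝ) ≤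
        (((V.powersetCard s).filter (fun S => IsoX δ q a X S)).card : ℝ) := by
  obtain ⟨C, hC1, hbox⟩ := box_isoX h
  obtain ⟨c₁, hc₁, hratio⟩ := dens_ratio C
  -- `2 (C s + 1) ≤ (2 C + 2) ^ s`
  obtain ⟨E, hE⟩ : ∃ E : ℝ, E = 4 * (C + 1) * C * Real.exp 1 := ⟨_, rfl⟩
  have hCR : (1 : ℝ) ≤ C := by exact_mod_cast hC1
  have hE0 : 0 < E := by rw [hE]; positivity
  refine ⟨c₁ / E, C, by positivity, fun k hk => ?_⟩
  obtain ⟨T, K, hT1, hTC, hK, δ, hδ, hgood⟩ := hbox k hk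
  obtain ⟨N, hN1, hN⟩ := bad_genV T K hK
  -- number needed
  obtain ⟨M, hM⟩ := exists_nat_ge ((N : ℝ) / ∏ p ∈ (Icc 1 T).filter Nat.Prime, (1 - 1 / (p : ℝ)))
  refine ⟨M, δ, hδ, fun q a hq haq V hV => ?_⟩
  set F := (range (T + 1)).filter (fun p => p.Prime ∧ ¬ p ∣ q) with hF
  obtain ⟨V', hV'V, hV'1, hV'2⟩ := sieve F (fun p hp => (mem_filter.1 hp).2.1) V
  have hθ : ∏ p ∈ F, (1 - 1 / (p : ℝ)) = dens T q := rfl
  rw [hθ] at hV'2
  have hall : ∏ p ∈ (Icc 1 T).filter Nat.Prime, (1 - 1 / (p : ℝ)) ≤ dens T q := by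
    unfold dens
    rw [← prod_sdiff (s₁ := (range (T + 1)).filter (fun p => p.Prime ∧ ¬ p ∣ q))
      (s₂ := (Icc 1 T).filter Nat.Prime) (by
        intro p hp
        rw [mem_filter, mem_range] at hp
        rw [mem_filter, mem_Icc]
        exact ⟨⟨hp.2.1.one_lt.le, by omega⟩, hp.2.1⟩)]
    apply mul_le_of_le_one_left (dens_pos T q).le
    exact prod_le_one (fun p hp => (fac_pos (mem_filter.1 (mem_sdiff.1 hp).1).2).le)
      (fun p _ => fac_le_one p)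
  have hallpos : 0 < ∏ p ∈ (Icc 1 T).filter Nat.Prime, (1 - 1 / (p : ℝ)) :=
    prod_pos (fun p hp => fac_pos (mem_filter.1 hp).2)
  have hNV' : N ≤ V'.card := by
    have h1 : (N : ℝ) ≤ V'.card := by
      rw [div_le_iff₀ hallpos] at hM
      have h2 : (M : ℝ) ≤ V.card := by exact_mod_cast hV
      calc (N : ℝ) ≤ M * ∏ p ∈ (Icc 1 T).filter Nat.Prime, (1 - 1 / (p : ℝ)) := hM
        _ ≤ V.card * dens T q := by gcongr
        _ = dens T q * V.card := mul_comm _ _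
        _ ≤ _ := hV'2
    exact_mod_cast h1
  obtain ⟨X₀, hX₀⟩ := hgood q a hq haq (V'.sup id)
  refine ⟨X₀, fun X hX => ?_⟩
  have hbad := hN q (fun i => k ≤ i ∧ i ≤ C * k) (fun S => IsoX δ q a X S) V'
    (fun hh h0 h1 h2 => hX₀ X hX hh (fun x hx => Finset.le_sup (f := id) (h0 x hx)) h1 h2) hNV' (by
    intro p hp hpT hpq
    exact hV'1 p (mem_filter.2 ⟨mem_range.2 (by omega), hp, hpq⟩))
  obtain ⟨s, hks, hsC, hsT, hcount⟩ := count_gen T k (C * k) (fun S => IsoX δ q a X S) V' (hN1.trans hNV') hbad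
  refine ⟨s, hks, hsC, ?_⟩
  have hs1 : 1 ≤ s := hk.trans hks
  have hsR : (1 : ℝ) ≤ s := by exact_mod_cast hs1
  have hspos : (0 : ℝ) < s := by linarith
  have hksR : (k : ℝ) ≤ s := by exact_mod_cast hks
  have hTs : T ≤ C * s ^ 2 := hTC.trans (Nat.mul_le_mul_left _ (Nat.pow_le_pow_left hks 2))
  set G := (((V.powersetCard s).filter (fun S => IsoX δ q a X S)).card : ℝ) with hG
  have hG' : (((V'.powersetCard s).filter (fun S => IsoX δ q a X S)).card : ℝ) ≤ G := by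
    rw [hG]
    have := card_le_card (filter_subset_filter (fun S => IsoX δ q a X S)
      (powersetCard_mono (n := s) hV'V))
    exact_mod_cast this
  have hG0 : 0 ≤ G := Nat.cast_nonneg _
  have hs0 : (0 : ℝ) < s.factorial := by exact_mod_cast Nat.factorial_pos s
  -- `2 (C k + 1) ≤ (4 (C + 1)) ^ s`
  have hfac : 2 * (((C * k : ℕ) : ℝ) + 1) ≤ (4 * ((C : ℝ) + 1)) ^ s := by
    have h1 : (s : ℝ) ≤ 2 ^ s := by exact_mod_cast (Nat.lt_pow_self (by norm_num)).le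
    have h2 : ((C : ℝ) + 1) ≤ ((C : ℝ) + 1) ^ s := le_self_pow₀ (by linarith) (by omega)
    have h3 : (2 : ℝ) ≤ 2 ^ s := le_self_pow₀ (by norm_num) (by omega)
    push_cast
    have h4 : (C : ℝ) * k ≤ C * s := mul_le_mul_of_nonneg_left hksR (by linarith)
    calc 2 * ((C : ℝ) * k + 1) ≤ 2 * (C * s + s) := by linarith
      _ = 2 * s * ((C : ℝ) + 1) := by ring
      _ ≤ 2 ^ s * 2 ^ s * ((C : ℝ) + 1) ^ s := by gcongr
      _ = (4 * ((C : ℝ) + 1)) ^ s := by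
        rw [← mul_pow, ← mul_pow]
        norm_num
  have h1 : (V'.card : ℝ) ^ s ≤ (4 * ((C : ℝ) + 1)) ^ s * (T : ℝ) ^ s * G := by
    have h2 : (T.choose s : ℝ) * (s.factorial : ℝ) ≤ (T : ℝ) ^ s := by
      have := Nat.choose_le_pow_div (α := ℝ) s T
      rwa [le_div_iff₀ hs0] at this
    calc (V'.card : ℝ) ^ s ≤ 2 * (((C * k : ℕ) : ℝ) + 1) * (T.choose s : ℝ) * (s.factorial : ℝ) *
          (((V'.powersetCard s).filter (fun S => IsoX δ q a X S)).card : ℝ) := hcount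
      _ = 2 * (((C * k : ℕ) : ℝ) + 1) * ((T.choose s : ℝ) * (s.factorial : ℝ)) *
          (((V'.powersetCard s).filter (fun S => IsoX δ q a X S)).card : ℝ) := by ring
      _ ≤ (4 * ((C : ℝ) + 1)) ^ s * (T : ℝ) ^ s * G := by gcongr
  have h3 : (dens T q * (V.card : ℝ)) ^ s ≤ (4 * ((C : ℝ) + 1)) ^ s * (T : ℝ) ^ s * G :=
    (pow_le_pow_left₀ (mul_nonneg (dens_pos T q).le (Nat.cast_nonneg _)) hV'2 s).trans h1
  have h4 : (V.card.choose s : ℝ) * (s.factorial : ℝ) ≤ (V.card : ℝ) ^ s := by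
    have := Nat.choose_le_pow_div (α := ℝ) s V.card
    rwa [le_div_iff₀ hs0] at this
  have h5 : ((s : ℝ) / Real.exp 1) ^ s ≤ s.factorial := by
    have h6 := Real.pow_div_factorial_le_exp (s : ℝ) hspos.le s
    rw [div_pow, ← Real.exp_nat_mul, mul_one, div_le_iff₀ (Real.exp_pos _)]
    rw [div_le_iff₀ hs0] at h6
    linarith
  have hTpos : (0 : ℝ) < T := by exact_mod_cast (by omega : 0 < T)
  have h7 : (dens T q) ^ s * (((s : ℝ) / Real.exp 1) ^ s * (V.card.choose s : ℝ)) ≤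
      (4 * ((C : ℝ) + 1)) ^ s * (T : ℝ) ^ s * G := by
    calc (dens T q) ^ s * (((s : ℝ) / Real.exp 1) ^ s * (V.card.choose s : ℝ))
        ≤ (dens T q) ^ s * ((s.factorial : ℝ) * (V.card.choose s : ℝ)) := by
          have := (dens_pos T q).le
          gcongr
      _ = (dens T q) ^ s * ((V.card.choose s : ℝ) * (s.factorial : ℝ)) := by ring
      _ ≤ (dens T q) ^ s * (V.card : ℝ) ^ s := by
          have := (dens_pos T q).le
          gcongr
      _ = (dens T q * (V.card : ℝ)) ^ s := by rw [mul_pow]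
      _ ≤ _ := h3
  -- the base
  have h8 : c₁ / E * dens s q / s ≤ dens T q * ((s : ℝ) / Real.exp 1) / (4 * ((C : ℝ) + 1) * T) := by
    have h9 := hratio s T q hs1 hsT hTs
    have h10 : (T : ℝ) ≤ C * (s : ℝ) ^ 2 := by exact_mod_cast hTs
    rw [le_div_iff₀ (by positivity)]
    have hEs : (4 * ((C : ℝ) + 1) * (C * (s : ℝ) ^ 2)) / (E * s) = (s : ℝ) / Real.exp 1 := by
      rw [div_eq_div_iff (by positivity) (Real.exp_pos _).ne', hE]
      ring
    calc c₁ / E * dens s q / s * (4 * ((C : ℝ) + 1) * T)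
        = (c₁ * dens s q) * ((4 * ((C : ℝ) + 1) * T) / (E * s)) := by
          field_simp
      _ ≤ (c₁ * dens s q) * ((4 * ((C : ℝ) + 1) * (C * (s : ℝ) ^ 2)) / (E * s)) := by
          have := (dens_pos s q).le
          gcongr
      _ = (c₁ * dens s q) * ((s : ℝ) / Real.exp 1) := by rw [hEs]
      _ ≤ _ := by gcongr
  have h11 : 0 ≤ c₁ / E * dens s q / s := by
    have := (dens_pos s q).le
    positivity
  calc (c₁ / E * dens s q / s) ^ s * ((V.card).choose s : ℝ)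
      ≤ (dens T q * ((s : ℝ) / Real.exp 1) / (4 * ((C : ℝ) + 1) * T)) ^ s * ((V.card).choose s : ℝ) := by
        gcongr
    _ = ((dens T q) ^ s * (((s : ℝ) / Real.exp 1) ^ s * (V.card.choose s : ℝ))) /
          (4 * ((C : ℝ) + 1) * T) ^ s := by
        rw [div_pow, mul_pow]
        ring
    _ ≤ ((4 * ((C : ℝ) + 1)) ^ s * (T : ℝ) ^ s * G) / (4 * ((C : ℝ) + 1) * T) ^ s := by gcongr
    _ = G := by
        rw [← mul_pow]
        exact mul_div_cancel_left₀ G (by positivity)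

end Pool.Agent.J6H13.RW
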