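import Pool.Agent.J6H13.RW.AsmX
import Pool.Agent.J6H13.RW.Fin
import Pool.Agent.H226R2.ShanksGap

/-! The theorem on isolated patterns in terms of the length `g` of the runs of composite numbers. -/

set_option autoImplicit false

open Finset Filter

namespace Pool.Agent.J6H13.RW

open Pool.Agent.H256R2.SC (ff t1 t2)
open Pool.Agent.H312R2.RG.C3 (ff_small)

/-- for some `n ≡ a` modulo `q` with `log n ≤ C₁ g (log₂ g)² / ((log g)² log₃ g)` the primes at distance at most `g`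
from `n` are exactly the numbers `n + q s`, `s ∈ S` -/
def Early (C₁ : ℝ) (g q a : ℕ) (S : Finset ℕ) : Prop :=
  ∃ n : ℕ, 2 * g ≤ n ∧ Real.log n ≤ C₁ * g * (Real.log (Real.log g)) ^ 2 /
      ((Real.log g) ^ 2 * Real.log (Real.log (Real.log g))) ∧ n ≡ a [MOD q] ∧
    ∀ y : ℤ, |y| ≤ g → (Nat.Prime ((n : ℤ) + y).toNat ↔ ∃ s ∈ S, y = q * s)

theorem early_of {δ : ℝ} (hδ : 0 < δ) (X₀ : ℝ) : ∃ G : ℕ, ∀ g : ℕ, G ≤ g → ∃ X : ℝ, X₀ ≤ X ∧
    ∀ (q a : ℕ) (S : Finset ℕ), IsoX δ q a X S → Early (32 / δ) g q a S := by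
  obtain ⟨X₁, hX₁⟩ := eventually_atTop.1 (ff_small (2 * δ) (by positivity))
  obtain ⟨G, hG⟩ := Pool.Agent.H226R2.ShanksGap.ana δ hδ (max (max X₀ X₁) 4)
  refine ⟨G, fun g hg => ?_⟩
  obtain ⟨h1, h2⟩ := hG g hg
  obtain ⟨Y, hY⟩ : ∃ Y : ℝ, Y = (16 / δ) * g * (Real.log (Real.log g)) ^ 2 /
      ((Real.log g) ^ 2 * Real.log (Real.log (Real.log g))) := ⟨_, rfl⟩
  rw [← hY] at h1 h2
  obtain ⟨h1a, h1b⟩ := max_le_iff.1 h1
  obtain ⟨h1c, h1d⟩ := max_le_iff.1 h1a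
  have hff : ff (Real.exp Y) = Y * (Real.log Y) ^ 2 * Real.log (Real.log (Real.log Y)) /
      (Real.log (Real.log Y)) ^ 2 := by
    unfold ff
    rw [Real.log_exp]
  rw [← hff] at h2
  have h3 := hX₁ (Real.exp Y) h1d
  refine ⟨Real.exp Y, h1c, ?_⟩
  rintro q a S ⟨n, hn1, hn2, hn3, hn4⟩
  refine ⟨n, ?_, ?_, hn3, ?_⟩
  · have h5 : ((2 * g : ℕ) : ℝ) ≤ n := by
      push_cast
      linarith
    exact_mod_cast h5
  · have h5 : (32 / δ) * g * (Real.log (Real.log g)) ^ 2 /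
      ((Real.log g) ^ 2 * Real.log (Real.log (Real.log g))) = 2 * Y := by
      rw [hY]
      ring
    rw [h5]
    have hn0 : (0 : ℝ) < n := (Real.exp_pos Y).trans hn1
    rw [Real.log_le_iff_le_exp hn0]
    have h6 : Real.exp (2 * Y) = Real.exp Y * Real.exp Y := by rw [← Real.exp_add]; ring_nf
    rw [h6]
    nlinarith
  · intro y hy
    apply hn4 y
    have h5 : (|(y : ℝ)|) ≤ g := by exact_mod_cast hy
    linarith

open Classical in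
theorem early_main : ∃ (c : ℝ) (C : ℕ), 0 < c ∧ ∀ k : ℕ, 1 ≤ k → ∃ (N : ℕ) (C₁ : ℝ),
    ∀ q a : ℕ, Squarefree q → a.Coprime q → ∀ V : Finset ℕ, N ≤ V.card → ∃ G : ℕ, ∀ g : ℕ, G ≤ g →
      ∃ s : ℕ, k ≤ s ∧ s ≤ C * k ∧ (c * dens s q / s) ^ s * ((V.card).choose s : ℝ) ≤
        (((V.powersetCard s).filter (fun S => Early C₁ g q a S)).card : ℝ) := by
  obtain ⟨c, C, hc, h⟩ := main_ofX stRW
  refine ⟨c, C, hc, fun k hk => ?_⟩
  obtain ⟨N, δ, hδ, h⟩ := h k hk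
  refine ⟨N, 32 / δ, fun q a hq haq V hV => ?_⟩
  obtain ⟨X₀, hX₀⟩ := h q a hq haq V hV
  obtain ⟨G, hG⟩ := early_of hδ X₀
  refine ⟨G, fun g hg => ?_⟩
  obtain ⟨X, hX, hE⟩ := hG g hg
  obtain ⟨s, h1, h2, h3⟩ := hX₀ X hX
  refine ⟨s, h1, h2, h3.trans ?_⟩
  exact_mod_cast card_le_card (fun S hS => by
    rw [mem_filter] at hS ⊢
    exact ⟨hS.1, hE q a S hS.2⟩)

end Pool.Agent.J6H13.RW
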