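import Mathlib

/-! Choice of the parameters. -/

set_option autoImplicit false

namespace Pool.Agent.J6H13.RW

open Filter

theorem choose2 {C₁ c₀ : ℝ} (hC₁ : 0 < C₁) (hc₀ : 0 < c₀) : ∃ D : ℕ, 1 ≤ D ∧ ∀ k : ℕ, 1 ≤ k →
    ∃ B b : ℕ, 1 ≤ B ∧ b ≤ B ∧ (k : ℝ) ≤ c₀ * B ∧ 2 * C₁ * B + 1 ≤ D * k ∧
      2 * C₁ * (2 * C₁ * B + 1) * B ≤ 2 ^ b ∧ 2 ^ b ≤ D * k ^ 2 := by
  have h1 : ∀ᶠ B : ℕ in atTop, (2 * C₁ * (2 * C₁ * B + 1) * B + 1 : ℝ) ≤ 2 ^ B := by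
    have h2 : Tendsto (fun n : ℕ => (n : ℝ) ^ 2 / 2 ^ n) atTop (nhds 0) :=
      tendsto_pow_const_div_const_pow_of_one_lt 2 (by norm_num)
    have h3 := h2.eventually (ge_mem_nhds (show (0 : ℝ) < 1 / (2 * C₁ * (2 * C₁ + 1) + 1) by positivity))
    filter_upwards [h3, eventually_ge_atTop 1] with B hB hB1
    have hB1' : (1 : ℝ) ≤ B := by exact_mod_cast hB1
    rw [div_le_div_iff₀ (by positivity) (by positivity), one_mul] at hB
    have h4 : 2 * C₁ * (2 * C₁ * B + 1) * B + 1 ≤ (B : ℝ) ^ 2 * (2 * C₁ * (2 * C₁ + 1) + 1) := by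
      have e1 : (B : ℝ) ^ 2 * (2 * C₁ * (2 * C₁ + 1) + 1) = 2 * C₁ * (2 * C₁ * B + B) * B + B ^ 2 := by ring
      rw [e1]
      have e2 : 2 * C₁ * (2 * C₁ * B + 1) * B ≤ 2 * C₁ * (2 * C₁ * B + B) * B := by
        apply mul_le_mul_of_nonneg_right _ (by linarith)
        apply mul_le_mul_of_nonneg_left _ (by positivity)
        linarith
      nlinarith
    linarith
  obtain ⟨B₁, hB₁⟩ := eventually_atTop.1 h1
  -- `B ≤ E k`
  obtain ⟨E, hE⟩ : ∃ E : ℝ, E = B₁ + 1 / c₀ + 2 := ⟨_, rfl⟩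
  have hE1 : 1 ≤ E := by
    rw [hE]
    have : (0 : ℝ) ≤ B₁ := Nat.cast_nonneg _
    have : 0 < 1 / c₀ := by positivity
    linarith
  obtain ⟨D, hD⟩ : ∃ D : ℕ, D = ⌈2 * (2 * C₁ * (2 * C₁ * E + 1) * E + 1) + (2 * C₁ * E + 1)⌉₊ := ⟨_, rfl⟩
  have hDle : 2 * (2 * C₁ * (2 * C₁ * E + 1) * E + 1) + (2 * C₁ * E + 1) ≤ D := by
    rw [hD]; exact Nat.le_ceil _
  have hq : 0 ≤ 2 * C₁ * (2 * C₁ * E + 1) * E := by positivity
  have hq2 : 0 ≤ 2 * C₁ * E := by positivity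
  refine ⟨D, ?_, ?_⟩
  · have : (1 : ℝ) ≤ D := by linarith
    exact_mod_cast this
  intro k hk
  have hk1 : (1 : ℝ) ≤ k := by exact_mod_cast hk
  obtain ⟨m, hm⟩ : ∃ m, m = ⌈(k : ℝ) / c₀⌉₊ := ⟨_, rfl⟩
  obtain ⟨B, hB⟩ : ∃ B, B = max B₁ (m + 1) := ⟨_, rfl⟩
  have hB1 : 1 ≤ B := by rw [hB]; exact (Nat.le_add_left 1 _).trans (le_max_right _ _)
  have hB1' : (1 : ℝ) ≤ B := by exact_mod_cast hB1
  have hBk : (k : ℝ) ≤ c₀ * B := by
    have h2 : (k : ℝ) / c₀ ≤ B := by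
      refine (Nat.le_ceil _).trans ?_
      rw [← hm]
      have h3 : m ≤ B := by rw [hB]; exact (Nat.le_succ _).trans (le_max_right B₁ (m + 1))
      exact_mod_cast h3
    rw [div_le_iff₀ hc₀] at h2
    linarith
  have hBle : (B : ℝ) ≤ E * k := by
    have h2 : B ≤ B₁ + (m + 1) := by
      rw [hB]
      exact max_le (Nat.le_add_right _ _) (Nat.le_add_left _ _)
    have h3 : (B : ℝ) ≤ B₁ + (m + 1) := by exact_mod_cast h2
    have h4 : (m : ℝ) < (k : ℝ) / c₀ + 1 := by rw [hm]; exact Nat.ceil_lt_add_one (by positivity)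
    have h5 : (k : ℝ) / c₀ = 1 / c₀ * k := by ring
    have h6 : (B₁ : ℝ) ≤ B₁ * k := by
      have : (0 : ℝ) ≤ B₁ := Nat.cast_nonneg _
      nlinarith
    rw [hE]
    nlinarith
  have hx0 : 0 ≤ 2 * C₁ * (2 * C₁ * B + 1) * B := by positivity
  obtain ⟨n, hn⟩ : ∃ n, n = ⌈2 * C₁ * (2 * C₁ * B + 1) * B⌉₊ := ⟨_, rfl⟩
  have hn1 : 2 * C₁ * (2 * C₁ * B + 1) * B ≤ n := by rw [hn]; exact Nat.le_ceil _
  have hn2 : (n : ℝ) < 2 * C₁ * (2 * C₁ * B + 1) * B + 1 := by rw [hn]; exact Nat.ceil_lt_add_one hx0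
  have hB2 : 2 * C₁ * B ≤ (2 * C₁ * E) * k := by
    have := mul_le_mul_of_nonneg_left hBle (show (0 : ℝ) ≤ 2 * C₁ by positivity)
    linarith
  refine ⟨B, Nat.clog 2 n, hB1, ?_, hBk, ?_, ?_, ?_⟩
  · apply Nat.clog_le_of_le_pow
    have h2 : (n : ℝ) ≤ 2 ^ B := by
      have h3 := hB₁ B (by rw [hB]; exact le_max_left _ _)
      linarith
    exact_mod_cast h2
  · calc 2 * C₁ * B + 1 ≤ (2 * C₁ * E) * k + 1 * k := by linarith
      _ = (2 * C₁ * E + 1) * k := by ring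
      _ ≤ D * k := by
        apply mul_le_mul_of_nonneg_right _ (by linarith)
        linarith
  · refine hn1.trans ?_
    exact_mod_cast Nat.le_pow_clog (by norm_num) n
  · have h2 : (2 : ℝ) ^ (Nat.clog 2 n) ≤ 2 * (2 * C₁ * (2 * C₁ * B + 1) * B + 1) := by
      rcases Nat.lt_or_ge 1 n with h | h
      · have h3 := Nat.pow_pred_clog_lt_self (b := 2) (by norm_num) h
        have h4 : 0 < Nat.clog 2 n := Nat.clog_pos (by norm_num) h
        have h5 : 2 ^ (Nat.clog 2 n) = 2 * 2 ^ (Nat.clog 2 n).pred := by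
          rw [← pow_succ', ← Nat.succ_eq_add_one, Nat.succ_pred_eq_of_pos h4]
        have h6 : (2 : ℝ) ^ (Nat.clog 2 n) ≤ 2 * n := by
          have : 2 ^ (Nat.clog 2 n) ≤ 2 * n := by
            rw [h5]
            exact Nat.mul_le_mul_left _ h3.le
          exact_mod_cast this
        linarith
      · rw [Nat.clog_of_right_le_one h, pow_zero]
        linarith
    have h3 : 2 * C₁ * (2 * C₁ * B + 1) * B ≤ (2 * C₁ * (2 * C₁ * E + 1) * E) * k ^ 2 := by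
      calc 2 * C₁ * (2 * C₁ * B + 1) * B ≤ 2 * C₁ * ((2 * C₁ * E) * k + 1 * k) * (E * k) := by
            apply mul_le_mul _ hBle (by positivity) (by positivity)
            apply mul_le_mul_of_nonneg_left _ (by positivity)
            linarith
        _ = _ := by ring
    have hk2 : (1 : ℝ) ≤ (k : ℝ) ^ 2 := one_le_pow₀ hk1
    have h4 : (2 : ℝ) ^ (Nat.clog 2 n) ≤ D * (k : ℝ) ^ 2 := by
      calc (2 : ℝ) ^ (Nat.clog 2 n) ≤ 2 * ((2 * C₁ * (2 * C₁ * E + 1) * E) * k ^ 2 + 1 * k ^ 2) := by linarith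
        _ = (2 * (2 * C₁ * (2 * C₁ * E + 1) * E + 1)) * (k : ℝ) ^ 2 := by ring
        _ ≤ D * (k : ℝ) ^ 2 := by
          apply mul_le_mul_of_nonneg_right _ (by positivity)
          linarith
    exact_mod_cast h4

end Pool.Agent.J6H13.RW
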