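import Pool.Agent.J6H13.RW.Main
import Pool.Agent.J6H13.RW.Par
import Pool.Agent.H362R2.CM.Final
import Pool.Agent.H362R2.RQ.Place
import Pool.Agent.H312R2.RG.C3a

/-! Exact patterns of primes isolated by record gaps: every box of classes contains such a pattern with elements of
different classes and with between `k` and `C k` elements. Part of the proof is adapted from
`Pool.Agent.W126.RecIso` (starting files, helper126). -/

set_option autoImplicit false

open Finset Filter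

namespace Pool.Agent.J6H13.RW

open Pool.Agent.H256R2.SC (ff t1 t2)
open Pool.Agent.H312R2.RG.C3 (ff_tendsto ff_lower ff_small ff_slow)
open Pool.Agent.H378R2 (yy)
open Pool.Agent.H362R2.RQ (dvd_of_primes)

/-- for infinitely many `n ≡ a` modulo `q` the primes at distance at most `δ f(n)` from `n` are exactly the numbers
`n + q s`, `s ∈ S` -/
def Iso (δ : ℝ) (q a : ℕ) (S : Finset ℕ) : Prop :=
  ∃ᶠ n : ℕ in atTop, n ≡ a [MOD q] ∧
    ∀ y : ℤ, |(y : ℝ)| ≤ δ * ff n → (Nat.Prime ((n : ℤ) + y).toNat ↔ ∃ s ∈ S, y = q * s)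

theorem scale_ev (c : ℝ) (hc : 0 < c) : ∀ᶠ X : ℝ in atTop, Real.log X ≤ c * ff X := by
  filter_upwards [ff_lower, t2.eventually_ge_atTop (1 / c), t1.eventually_gt_atTop 0] with X h1 h2 h3
  have h4 : 1 ≤ Real.log (Real.log X) * c := (div_le_iff₀ hc).1 h2
  have h5 : Real.log X * 1 ≤ Real.log X * (Real.log (Real.log X) * c) :=
    mul_le_mul_of_nonneg_left h4 h3.le
  have h6 : c * (Real.log X * Real.log (Real.log X)) ≤ c * ff X := mul_le_mul_of_nonneg_left h1 hc.le
  nlinarith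

/-- a scale at which the record window has prescribed size, up to a factor `2` -/
theorem scale_ex (c : ℝ) (hc : 0 < c) (Y : ℝ) : ∃ T₀ : ℝ, ∀ T : ℝ, T₀ ≤ T → ∃ X : ℝ, Y ≤ X ∧
    2 * T ≤ c * ff X ∧ c * ff X ≤ 4 * T := by
  classical
  have hpow : Tendsto (fun k : ℕ => (4 : ℝ) ^ k) atTop atTop :=
    tendsto_pow_atTop_atTop_of_one_lt (by norm_num)
  obtain ⟨k0, hk0⟩ := eventually_atTop.1 (hpow.eventually ((ff_slow (1 / 2) (by norm_num)).and
    ((eventually_ge_atTop Y).and (ff_tendsto.eventually_gt_atTop 0))))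
  have hinf : ∀ T : ℝ, ∃ k : ℕ, 2 * T ≤ c * ff ((4 : ℝ) ^ k) := by
    intro T
    obtain ⟨k, hk⟩ := ((ff_tendsto.comp hpow).eventually_ge_atTop (2 * T / c)).exists
    refine ⟨k, ?_⟩
    simp only [Function.comp] at hk
    rw [div_le_iff₀ hc] at hk
    linarith
  refine ⟨∑ k ∈ range (k0 + 1), |c * ff ((4 : ℝ) ^ k)| + 1, fun T hT => ?_⟩
  set k := Nat.find (hinf T) with hk
  have hk1 : 2 * T ≤ c * ff ((4 : ℝ) ^ k) := Nat.find_spec (hinf T)
  have hT0 : 0 < T := by
    have : (0 : ℝ) ≤ ∑ k ∈ range (k0 + 1), |c * ff ((4 : ℝ) ^ k)| :=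
      Finset.sum_nonneg fun _ _ => abs_nonneg _
    linarith
  have hkk : k0 < k := by
    by_contra hle
    push Not at hle
    have h1 : |c * ff ((4 : ℝ) ^ k)| ≤ ∑ k ∈ range (k0 + 1), |c * ff ((4 : ℝ) ^ k)| :=
      Finset.single_le_sum (f := fun k : ℕ => |c * ff ((4 : ℝ) ^ k)|) (fun _ _ => abs_nonneg _)
        (mem_range.2 (by omega))
    have h2 := le_abs_self (c * ff ((4 : ℝ) ^ k))
    linarith
  obtain ⟨l, hl⟩ : ∃ l, k = l + 1 := ⟨k - 1, by omega⟩
  have hmin := Nat.find_min (hinf T) (m := l) (by rw [← hk]; omega)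
  push Not at hmin
  obtain ⟨h1, -, h3⟩ := hk0 l (by omega)
  have h2 := h1 (4 ^ (l + 1)) (by rw [pow_succ]; nlinarith [pow_pos (show (0 : ℝ) < 4 by norm_num) l])
    (by rw [pow_succ]; linarith)
  obtain ⟨-, h4, h5⟩ := hk0 (l + 1) (by omega)
  rw [hl] at hk1
  refine ⟨4 ^ (l + 1), h4, hk1, ?_⟩
  rw [abs_lt] at h2
  have h6 : 1 / 2 * ff (4 ^ (l + 1)) < ff (4 ^ l) := by
    have h7 : 1 / 2 < ff (4 ^ l) / ff (4 ^ (l + 1)) := by linarith [h2.1]
    rwa [lt_div_iff₀ h5] at h7
  have h8 : c * (1 / 2 * ff (4 ^ (l + 1))) < c * ff (4 ^ l) := mul_lt_mul_of_pos_left h6 hc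
  linarith

/-- many elements in many classes -/
theorem rich (M m G g₀ : ℕ) (hM : M = 8 * m) (hG : G = 8 * g₀) (hg : 1 ≤ g₀) (S : Finset (Fin (M * G)))
    (hS : M * G ≤ 4 * S.card) :
    ∃ U ⊆ S, U.card = m * g₀ ∧ ∀ d : ℕ, (U.filter (fun x : Fin (M * G) => (x : ℕ) / G = d)).card ≤ g₀ := by
  classical
  have hG0 : 0 < G := by omega
  set F : ℕ → Finset (Fin (M * G)) := fun d => S.filter (fun x => (x : ℕ) / G = d) with hF
  have hFG : ∀ d, (F d).card ≤ G := by
    intro d
    have h1 : (F d).card ≤ (Finset.Ico (d * G) (d * G + G)).card := by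
      apply Finset.card_le_card_of_injOn (fun x : Fin (M * G) => (x : ℕ))
      · intro x hx
        rw [mem_coe, hF, mem_filter] at hx
        have h3 : (x : ℕ) / G = d := hx.2
        have h4 := Nat.div_add_mod' (x : ℕ) G
        have h5 := Nat.mod_lt (x : ℕ) hG0
        rw [h3] at h4
        rw [mem_coe, mem_Ico]
        constructor
        · linarith [Nat.zero_le ((x : ℕ) % G)]
        · linarith
      · intro x _ y _ h
        exact Fin.ext h
    rwa [Nat.card_Ico, Nat.add_sub_cancel_left] at h1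
  have hsum : S.card = ∑ d ∈ range M, (F d).card :=
    card_eq_sum_card_fiberwise (f := fun x : Fin (M * G) => (x : ℕ) / G) (t := range M)
      (fun x _ => mem_range.2 ((Nat.div_lt_iff_lt_mul hG0).2 x.2))
  set R := (range M).filter (fun d => g₀ ≤ (F d).card) with hR
  have hRm : m ≤ R.card := by
    by_contra hcon
    push Not at hcon
    have h1 : ∑ d ∈ range M, (F d).card ≤ ∑ d ∈ range M, (g₀ + if d ∈ R then G else 0) := by
      apply sum_le_sum
      intro d hd
      split_ifs with h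
      · have := hFG d
        omega
      · rw [hR, mem_filter, not_and] at h
        have := h hd
        omega
    have h2 : ∑ d ∈ range M, (g₀ + if d ∈ R then G else 0) = M * g₀ + R.card * G := by
      rw [sum_add_distrib, sum_const, card_range, smul_eq_mul, ← sum_filter, sum_const, smul_eq_mul]
      congr 3
      ext d
      rw [mem_filter, hR, mem_filter]
      tauto
    have h3 : R.card * G ≤ (m - 1) * G := Nat.mul_le_mul_right _ (by omega)
    have h4 : (m - 1) * G + G = m * G := by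
      have : m = (m - 1) + 1 := by omega
      rw [this, Nat.add_sub_cancel]
      ring
    -- `M G ≤ 4 (M g₀ + (m - 1) G)`, i.e. `64 m g₀ ≤ 32 m g₀ + 32 m g₀ - 4 G`
    have h5 : M * G = 64 * (m * g₀) := by rw [hM, hG]; ring
    have h6 : M * g₀ = 8 * (m * g₀) := by rw [hM]; ring
    have h7 : m * G = 8 * (m * g₀) := by rw [hG]; ring
    omega
  obtain ⟨R', hR', hR'c⟩ := exists_subset_card_eq hRm
  have hsub : ∀ d : ℕ, ∃ U : Finset (Fin (M * G)), d ∈ R' → U ⊆ F d ∧ U.card = g₀ := by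
    intro d
    by_cases hd : d ∈ R'
    · have h1 : g₀ ≤ (F d).card := (mem_filter.1 (hR' hd)).2
      obtain ⟨U, hU, hUc⟩ := exists_subset_card_eq h1
      exact ⟨U, fun _ => ⟨hU, hUc⟩⟩
    · exact ⟨∅, fun h => absurd h hd⟩
  choose U hU using hsub
  have hUF : ∀ d ∈ R', ∀ x ∈ U d, (x : ℕ) / G = d := fun d hd x hx => (mem_filter.1 ((hU d hd).1 hx)).2
  refine ⟨R'.biUnion U, ?_, ?_, ?_⟩
  · intro x hx
    obtain ⟨d, hd, hxd⟩ := mem_biUnion.1 hx
    exact (mem_filter.1 ((hU d hd).1 hxd)).1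
  · rw [card_biUnion, sum_congr rfl (fun d hd => (hU d hd).2), sum_const, hR'c, smul_eq_mul]
    intro d hd d' hd' hne
    rw [Function.onFun, disjoint_left]
    intro x hx hx'
    exact hne ((hUF d hd x hx).symm.trans (hUF d' hd' x hx'))
  · intro d
    by_cases hd : d ∈ R'
    · have h1 : (R'.biUnion U).filter (fun x : Fin (M * G) => (x : ℕ) / G = d) ⊆ U d := by
        intro x hx
        rw [mem_filter, mem_biUnion] at hx
        obtain ⟨⟨d', hd', hx'⟩, hxd⟩ := hx
        have : d' = d := (hUF d' hd' x hx').symm.trans hxd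
        rwa [this] at hx'
      exact (card_le_card h1).trans (hU d hd).2.le
    · have h1 : (R'.biUnion U).filter (fun x : Fin (M * G) => (x : ℕ) / G = d) = ∅ := by
        rw [filter_eq_empty_iff]
        intro x hx hxd
        obtain ⟨d', hd', hx'⟩ := mem_biUnion.1 hx
        have : d' = d := (hUF d' hd' x hx').symm.trans hxd
        rw [this] at hd'
        exact hd hd'
      rw [h1, card_empty]
      omega

theorem box_iso (h : StRW) : ∃ C : ℕ, 1 ≤ C ∧ ∀ k : ℕ, 1 ≤ k → ∃ M K : ℕ, 1 ≤ M ∧ M ≤ C * k ^ 2 ∧ 1 ≤ K ∧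
    ∃ δ : ℝ, 0 < δ ∧ ∀ q a : ℕ, Squarefree q → a.Coprime q → ∀ hh : ℕ → ℕ,
      (∀ x < M * K, ∀ y < M * K, hh x = hh y → x = y) →
      (∀ p : ℕ, p.Prime → ¬ p ∣ q → ∃ b : ℕ, ∀ x < M * K, ¬ p ∣ b + hh x) →
      ∃ I : Finset ℕ, (∀ x ∈ I, x < M * K) ∧ (k ≤ I.card ∧ I.card ≤ C * k) ∧
        (∀ x ∈ I, ∀ y ∈ I, x / K = y / K → x = y) ∧ Iso δ q a (I.image hh) := by
  classical
  obtain ⟨C₁, c₀, hC₁, hc₀, hmain⟩ := h
  obtain ⟨D, hD1, hpar⟩ := choose2 hC₁ hc₀
  refine ⟨8 * D, by omega, ?_⟩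
  intro k hk
  have hk1 : (1 : ℝ) ≤ k := by exact_mod_cast hk
  obtain ⟨B, b, hB1, hbB, hBk, hBD, hb1, hb2⟩ := hpar k hk
  have hB1' : (1 : ℝ) ≤ B := by exact_mod_cast hB1
  have hB0 : (0 : ℝ) < B := by linarith
  obtain ⟨c, hc, hz⟩ := hmain B hB1
  set g₀ := 2 ^ (B - b) with hg₀
  have hg₀1 : 1 ≤ g₀ := Nat.one_le_two_pow
  have hmg : 2 ^ b * g₀ = 2 ^ B := by rw [hg₀, ← pow_add, Nat.add_sub_cancel' hbB]
  set M := 8 * 2 ^ b with hM
  set G := 8 * g₀ with hG
  have hG0 : 0 < G := by omega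
  obtain ⟨K2, hK2, hquart⟩ := Pool.Agent.H362R2.CM.quarter (M * G)
  have hM1 : 1 ≤ M := by
    have : 1 ≤ 2 ^ b := Nat.one_le_two_pow
    omega
  refine ⟨M, K2 * G, hM1, ?_, Nat.mul_pos hK2 hG0, c / 16, by positivity, ?_⟩
  · rw [hM]
    calc 8 * 2 ^ b ≤ 8 * (D * k ^ 2) := Nat.mul_le_mul_left _ hb2
      _ = 8 * D * k ^ 2 := by ring
  intro q a hq haq hh hinj hadm
  have hq0 : 0 < q := Nat.pos_of_ne_zero hq.ne_zero
  have hK20 : 0 < K2 := hK2
  -- the index of an element
  set idx : Fin (M * G) → Fin K2 → ℕ := fun g i => (g : ℕ) * K2 + i with hidx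
  have hidxlt : ∀ g i, idx g i < M * (K2 * G) := by
    intro g i
    have h1 : (g : ℕ) + 1 ≤ M * G := g.2
    have h2 : ((g : ℕ) + 1) * K2 ≤ (M * G) * K2 := Nat.mul_le_mul_right _ h1
    have h3 : (i : ℕ) < K2 := i.2
    have h4 : ((g : ℕ) + 1) * K2 = (g : ℕ) * K2 + K2 := by ring
    have h5 : M * (K2 * G) = M * G * K2 := by ring
    simp only [hidx]
    omega
  have hidxdiv : ∀ g i, idx g i / K2 = g := by
    intro g i
    simp only [hidx]
    rw [Nat.add_comm, Nat.add_mul_div_right _ _ hK20, Nat.div_eq_of_lt i.2, zero_add]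
  have hidxinj : ∀ g i g' i', idx g i = idx g' i' → g = g' ∧ i = i' := by
    intro g i g' i' he
    have h1 : (g : ℕ) = g' := by rw [← hidxdiv g i, he, hidxdiv]
    refine ⟨Fin.ext h1, Fin.ext ?_⟩
    simp only [hidx] at he
    rw [h1] at he
    omega
  obtain ⟨S, cf, hS, hinf⟩ := hquart (fun _ _ => (q : ℤ)) (fun g i => (a : ℤ) + q * hh (idx g i))
    (fun _ _ => by exact_mod_cast hq0) (by
      intro x y hxy
      simp only [Prod.mk.injEq, true_and, add_right_inj] at hxy
      have hq0' : (q : ℤ) ≠ 0 := by exact_mod_cast hq0.ne'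
      have h1 : (hh (idx x.1 x.2) : ℤ) = hh (idx y.1 y.2) := mul_left_cancel₀ hq0' hxy
      have h2 : hh (idx x.1 x.2) = hh (idx y.1 y.2) := by exact_mod_cast h1
      obtain ⟨h3, h4⟩ := hidxinj _ _ _ _ (hinj _ (hidxlt _ _) _ (hidxlt _ _) h2)
      exact Prod.ext h3 h4) (by
      intro p hp
      by_cases hpq : p ∣ q
      · refine ⟨0, fun g i hd => ?_⟩
        rw [mul_zero, zero_add] at hd
        have h1 : (p : ℤ) ∣ (q : ℤ) * hh (idx g i) := (Int.natCast_dvd_natCast.2 hpq).mul_right _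
        have h2 : (p : ℤ) ∣ (a : ℤ) := (dvd_add_left h1).1 hd
        have h3 : p ∣ a := by exact_mod_cast h2
        have h4 := Nat.dvd_gcd h3 hpq
        rw [Nat.Coprime] at haq
        rw [haq] at h4
        exact hp.one_lt.ne' (Nat.dvd_one.1 h4)
      · obtain ⟨b', hb'⟩ := hadm p hp hpq
        have hcop : IsCoprime (q : ℤ) (p : ℤ) :=
          (Nat.isCoprime_iff_coprime.2 ((Nat.Prime.coprime_iff_not_dvd hp).2 hpq)).symm
        obtain ⟨u, v, huv⟩ := hcop
        -- `q u ≡ 1`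
        refine ⟨b' - a * u, fun g i hd => hb' (idx g i) (hidxlt g i) ?_⟩
        have h1 : (q : ℤ) * (b' - a * u) + (a + q * hh (idx g i)) =
            q * (b' + hh (idx g i)) + p * (a * v) := by
          have : (q : ℤ) * u = 1 - p * v := by linarith
          calc (q : ℤ) * (b' - a * u) + (a + q * hh (idx g i))
              = q * (b' + hh (idx g i)) - a * (q * u) + a := by ring
            _ = _ := by rw [this]; ring
        rw [h1] at hd
        have h2 : (p : ℤ) ∣ (q : ℤ) * (b' + hh (idx g i)) := (dvd_add_left (Dvd.intro _ rfl)).1 hd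
        have h3 : (p : ℤ) ∣ ((b' : ℤ) + hh (idx g i)) := by
          rcases Int.Prime.dvd_mul' hp h2 with h | h
          · exact absurd (by exact_mod_cast h) hpq
          · exact h
        exact_mod_cast h3)
  obtain ⟨U, hUS, hUc, hUd⟩ := rich M (2 ^ b) G g₀ hM hG hg₀1 S hS
  rw [hmg] at hUc
  set u := U.orderEmbOfFin hUc with hu
  have huU : ∀ j, u j ∈ U := fun j => Finset.orderEmbOfFin_mem U hUc j
  set pos : Fin (2 ^ B) → ℕ := fun j => idx (u j) (cf (u j)) with hpos
  have hposlt : ∀ j, pos j < M * (K2 * G) := fun j => hidxlt _ _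
  have hposinj : ∀ i j, pos i = pos j → i = j := fun i j hij =>
    u.injective (hidxinj _ _ _ _ hij).1
  have hposdiv : ∀ j, pos j / (K2 * G) = (u j : ℕ) / G := by
    intro j
    rw [← Nat.div_div_eq_div_mul, hidxdiv]
  -- the weights
  obtain ⟨lam, hlam⟩ : ∃ lam : ℝ, lam = 2 * C₁ * B + 1 := ⟨_, rfl⟩
  have hlam0 : 0 < lam := by rw [hlam]; positivity
  obtain ⟨η, hη⟩ : ∃ η : ℝ, η = 1 / (2 * C₁) / B := ⟨_, rfl⟩
  have hη0 : 0 < η := by rw [hη]; positivity
  have hηB : 2 * C₁ * B * η = 1 := by rw [hη]; field_simp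
  set w : Fin (2 ^ B) → Fin (2 ^ B) → ℝ := fun i j =>
    (if (u i : ℕ) / G = (u j : ℕ) / G then lam else 0) + η with hw
  have hw0 : ∀ i j, 0 ≤ w i j := by
    intro i j
    simp only [hw]
    split_ifs
    · linarith
    · linarith
  have hwsum : C₁ * B * ∑ i, ∑ j, w i j ≤ (2 ^ B) ^ 2 := by
    have h1 : ∀ i, ∑ j, w i j ≤ lam * g₀ + η * 2 ^ B := by
      intro i
      simp only [hw]
      rw [sum_add_distrib, ← sum_filter, sum_const, sum_const, card_univ, Fintype.card_fin, nsmul_eq_mul,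
        nsmul_eq_mul]
      have h2 : ((univ : Finset (Fin (2 ^ B))).filter (fun j => (u i : ℕ) / G = (u j : ℕ) / G)).card ≤ g₀ := by
        refine le_trans ?_ (hUd ((u i : ℕ) / G))
        apply card_le_card_of_injOn (fun j => u j)
        · intro j hj
          rw [mem_coe, mem_filter] at hj
          rw [mem_coe, mem_filter]
          exact ⟨huU j, hj.2.symm⟩
        · intro j _ j' _ hjj
          exact u.injective hjj
      have h3 : (((univ : Finset (Fin (2 ^ B))).filter (fun j => (u i : ℕ) / G = (u j : ℕ) / G)).card : ℝ) ≤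
        g₀ := by exact_mod_cast h2
      have h4 := mul_le_mul_of_nonneg_right h3 hlam0.le
      push_cast
      linarith
    have h2 : ∑ i, ∑ j, w i j ≤ 2 ^ B * (lam * g₀ + η * 2 ^ B) := by
      refine (sum_le_sum fun i _ => h1 i).trans (le_of_eq ?_)
      rw [sum_const, card_univ, Fintype.card_fin, nsmul_eq_mul]
      push_cast
      ring
    have h3 : C₁ * B * ∑ i, ∑ j, w i j ≤ C₁ * B * (2 ^ B * (lam * g₀ + η * 2 ^ B)) :=
      mul_le_mul_of_nonneg_left h2 (by positivity)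
    refine h3.trans ?_
    have h4 : (2 : ℝ) ^ b * g₀ = 2 ^ B := by exact_mod_cast hmg
    have h5 : 2 * (C₁ * B * lam) * g₀ ≤ 2 ^ B := by
      rw [← h4]
      apply mul_le_mul_of_nonneg_right _ (Nat.cast_nonneg _)
      rw [hlam]
      linarith
    have h6 : (0 : ℝ) < 2 ^ B := by positivity
    have h7 : C₁ * B * (2 ^ B * (lam * g₀ + η * 2 ^ B)) =
        (2 * (C₁ * B * lam) * g₀) * 2 ^ B / 2 + (2 * C₁ * B * η) * (2 ^ B) ^ 2 / 2 := by ring
    rw [h7, hηB]
    have h8 := mul_le_mul_of_nonneg_right h5 h6.le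
    linarith
  -- by contradiction
  by_contra hcon
  simp only [not_exists, not_and] at hcon
  have hcon2 : ∀ I : Finset ℕ, ∃ N : ℕ, I ⊆ range (M * (K2 * G)) →
      (k ≤ I.card ∧ I.card ≤ 8 * D * k) → (∀ x ∈ I, ∀ y ∈ I, x / (K2 * G) = y / (K2 * G) → x = y) →
      ∀ n ≥ N, ¬ (n ≡ a [MOD q] ∧ ∀ y : ℤ, |(y : ℝ)| ≤ c / 16 * ff n →
        (Nat.Prime ((n : ℤ) + y).toNat ↔ ∃ s ∈ I.image hh, y = q * s)) := by
    intro I
    by_cases hI : I ⊆ range (M * (K2 * G)) ∧ (k ≤ I.card ∧ I.card ≤ 8 * D * k) ∧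
        (∀ x ∈ I, ∀ y ∈ I, x / (K2 * G) = y / (K2 * G) → x = y)
    · have h1 := hcon I (fun x hx => mem_range.1 (hI.1 hx)) hI.2.1 hI.2.2
      obtain ⟨N, hN⟩ := eventually_atTop.1 (not_frequently.1 h1)
      exact ⟨N, fun _ _ _ n hn => hN n hn⟩
    · exact ⟨0, fun h1 h2 h3 => absurd ⟨h1, h2, h3⟩ hI⟩
  choose NI hNI using hcon2
  set N0 : ℕ := (range (M * (K2 * G))).powerset.sup NI with hN0
  obtain ⟨X1, hX1⟩ := hz q
  obtain ⟨X2, hX2⟩ := eventually_atTop.1 ((scale_ev (c / 8) (by positivity)).and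
    ((ff_slow (1 / 2) (by norm_num)).and ((ff_small c hc).and
    ((ff_tendsto.eventually_gt_atTop 0).and ((t1.eventually_ge_atTop 1).and
      (eventually_ge_atTop (1 : ℝ)))))))
  obtain ⟨T₀, hT₀⟩ := scale_ex c hc (max (max X1 X2) N0)
  -- a large element
  set Bh : ℕ := ∑ j, q * hh (pos j) with hBh
  have hhB : ∀ j, q * hh (pos j) ≤ Bh := fun j =>
    Finset.single_le_sum (f := fun j => q * hh (pos j)) (fun _ _ => Nat.zero_le _) (mem_univ j)
  obtain ⟨n', hn', hn'g⟩ := hinf.exists_gt (⌈T₀⌉₊ + 2 * Bh + 2)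
  set T : ℕ := q * n' + a with hT
  have hTn : n' ≤ T := by
    rw [hT]
    have := Nat.le_mul_of_pos_left n' hq0
    omega
  have hTT0 : T₀ ≤ T := by
    have h1 := Nat.le_ceil T₀
    have h2 : ⌈T₀⌉₊ ≤ T := by omega
    have h3 : ((⌈T₀⌉₊ : ℕ) : ℝ) ≤ T := by exact_mod_cast h2
    linarith
  have hTB : 2 * (Bh : ℝ) + 2 ≤ T := by
    have h2 : 2 * Bh + 2 ≤ T := by omega
    exact_mod_cast h2
  obtain ⟨X, hXY, hXa, hXb⟩ := hT₀ T hTT0
  have hX1' : X1 ≤ X := ((le_max_left _ _).trans (le_max_left _ _)).trans hXY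
  have hX2' : X2 ≤ X := ((le_max_right _ _).trans (le_max_left _ _)).trans hXY
  have hXN0 : (N0 : ℝ) ≤ X := (le_max_right _ _).trans hXY
  obtain ⟨e1, e2, e3, e4, e5, e6⟩ := hX2 X hX2'
  have hBh0 : (0 : ℝ) ≤ Bh := Nat.cast_nonneg _
  have hT0 : (0 : ℝ) ≤ T := Nat.cast_nonneg _
  -- the shifts
  set t : Fin (2 ^ B) → ℕ := fun j => T + q * hh (pos j) with ht
  have htp : ∀ j, (t j).Prime := by
    intro j
    obtain ⟨-, a2⟩ := hn' (u j) (hUS (huU j))
    have e1 : (q : ℤ) * n' + (a + q * hh (idx (u j) (cf (u j)))) = ((t j : ℕ) : ℤ) := by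
      simp only [ht, hT, hpos]
      push_cast
      ring
    rw [e1] at a2
    exact Nat.prime_iff_prime_int.2 a2
  have htinj : Function.Injective t := by
    intro i j hij
    have h1 : q * hh (pos i) = q * hh (pos j) := Nat.add_left_cancel hij
    have h2 : hh (pos i) = hh (pos j) := Nat.eq_of_mul_eq_mul_left hq0 h1
    exact hposinj i j (hinj _ (hposlt i) _ (hposlt j) h2)
  have htR : ∀ j, (t j : ℝ) = T + ((q * hh (pos j) : ℕ) : ℝ) := fun j => by
    simp only [ht]
    push_cast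
    ring
  have htlo : ∀ j, (T : ℝ) ≤ t j := by
    intro j
    rw [htR j]
    have : (0 : ℝ) ≤ ((q * hh (pos j) : ℕ) : ℝ) := Nat.cast_nonneg _
    linarith
  have hthi : ∀ j, (t j : ℝ) ≤ 2 * T := by
    intro j
    rw [htR j]
    have : ((q * hh (pos j) : ℕ) : ℝ) ≤ Bh := by exact_mod_cast hhB j
    linarith
  have hyT : (yy X : ℝ) < T / 2 := by
    have h1 : (yy X : ℝ) ≤ Real.log X / 1000 := Nat.floor_le (by positivity)
    linarith
  obtain ⟨n, hn1, hn2, -, hcount, hs, hzn⟩ := hX1 X hX1' t htinj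
    (fun j => ⟨htp j, by
      have h2 : (yy X : ℝ) < t j := by linarith [htlo j]
      exact_mod_cast h2, (hthi j).trans hXa⟩) w hw0 hwsum ∅ (by
      rw [card_empty, Nat.cast_zero]
      positivity)
  have hqn : q ∣ n := dvd_of_primes q n hq (fun p hp hpq => hzn p hp (Nat.le_of_dvd hq0 hpq))
  set J0 : Finset (Fin (2 ^ B)) := univ.filter (fun j => (n + t j).Prime) with hJ0
  -- the number of the primes
  have hfilt : ∀ i, univ.filter (fun j => (n + t j).Prime ∧ i ≠ j) = J0.erase i := by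
    intro i
    ext j
    rw [hJ0, mem_erase, mem_filter, mem_filter]
    constructor
    · rintro ⟨_, h1, h2⟩
      exact ⟨fun h => h2 h.symm, mem_univ _, h1⟩
    · rintro ⟨h1, _, h2⟩
      exact ⟨mem_univ _, h2, fun h => h1 h.symm⟩
  rw [sum_congr rfl (fun i _ => by rw [hfilt i])] at hcount
  have hcB : 0 < c₀ * B := by positivity
  have hJk : k ≤ J0.card := by
    have h1 : 0 ≤ ∑ i ∈ J0, ∑ j ∈ J0.erase i, w i j :=
      sum_nonneg fun i _ => sum_nonneg fun j _ => hw0 i j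
    have h2 : (k : ℝ) ≤ J0.card := by linarith
    exact_mod_cast h2
  have hJup : (J0.card : ℝ) < 2 * C₁ * B + 1 := by
    have h1 : ∑ i ∈ J0, ∑ _j ∈ J0.erase i, η ≤ ∑ i ∈ J0, ∑ j ∈ J0.erase i, w i j := by
      refine sum_le_sum fun i _ => sum_le_sum fun j _ => ?_
      simp only [hw]
      split_ifs
      · linarith
      · linarith
    have h2 : ∑ i ∈ J0, ∑ _j ∈ J0.erase i, η = J0.card * (((J0.card : ℝ) - 1) * η) := by
      have h3 : ∀ i ∈ J0, ∑ _j ∈ J0.erase i, η = ((J0.card : ℝ) - 1) * η := by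
        intro i hi
        rw [sum_const, nsmul_eq_mul, card_erase_of_mem hi, Nat.cast_sub (card_pos.2 ⟨i, hi⟩)]
        push_cast
        ring
      rw [sum_congr rfl h3, sum_const, nsmul_eq_mul]
    have h4 : (J0.card : ℝ) * (((J0.card : ℝ) - 1) * η) < J0.card * 1 := by
      rw [h2] at h1
      linarith
    have h5 : (0 : ℝ) < J0.card := by
      have : (k : ℝ) ≤ J0.card := by exact_mod_cast hJk
      linarith
    have h6 : ((J0.card : ℝ) - 1) * η < 1 := lt_of_mul_lt_mul_left h4 h5.le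
    have h7 : ((J0.card : ℝ) - 1) * η < 2 * C₁ * B * η := by rw [hηB]; exact h6
    have h8 := lt_of_mul_lt_mul_right h7 hη0.le
    linarith
  have hJD : J0.card ≤ 8 * D * k := by
    have h1 : (J0.card : ℝ) ≤ D * k := by linarith
    have h2 : J0.card ≤ D * k := by exact_mod_cast h1
    have h3 : D * k ≤ 8 * (D * k) := by omega
    calc J0.card ≤ 8 * (D * k) := h2.trans h3
      _ = _ := by ring
  have hJcl : ∀ i ∈ J0, ∀ j ∈ J0, (u i : ℕ) / G = (u j : ℕ) / G → i = j := by
    intro i hi j hj hij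
    by_contra hne
    have h1 : lam ≤ ∑ i ∈ J0, ∑ j ∈ J0.erase i, w i j := by
      have h2 : w i j ≤ ∑ j ∈ J0.erase i, w i j :=
        single_le_sum (f := fun j => w i j) (fun j _ => hw0 i j) (mem_erase.2 ⟨fun h => hne h.symm, hj⟩)
      have h3 : ∑ j ∈ J0.erase i, w i j ≤ ∑ i ∈ J0, ∑ j ∈ J0.erase i, w i j :=
        single_le_sum (f := fun i => ∑ j ∈ J0.erase i, w i j)
          (fun i _ => sum_nonneg fun j _ => hw0 i j) hi
      have h4 : lam ≤ w i j := by
        simp only [hw, hij, if_true]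
        linarith
      linarith
    rw [← hlam] at hJup
    linarith
  set I : Finset ℕ := J0.image pos with hI
  have hIc : I.card = J0.card := card_image_of_injective _ (fun i j hij => hposinj i j hij)
  have hTX : (T : ℝ) ≤ X := by linarith
  have hIr : I ⊆ range (M * (K2 * G)) := by
    intro x hx
    obtain ⟨j, -, rfl⟩ := mem_image.1 hx
    exact mem_range.2 (hposlt j)
  have hNN : NI I ≤ n + T := by
    have h1 : NI I ≤ N0 := Finset.le_sup (f := NI) (mem_powerset.2 hIr)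
    have h2 : (N0 : ℝ) < n := hXN0.trans_lt hn1
    have h3 : N0 < n := by exact_mod_cast h2
    omega
  apply hNI I hIr (by rw [hIc]; exact ⟨hJk, hJD⟩) ?_ (n + T) hNN
  · constructor
    · have h1 : n ≡ 0 [MOD q] := (Nat.modEq_zero_iff_dvd).2 hqn
      have h2 : T ≡ a [MOD q] := by
        rw [hT]
        have : q * n' ≡ 0 [MOD q] := (Nat.modEq_zero_iff_dvd).2 (Dvd.intro _ rfl)
        have h3 := this.add_right a
        rwa [zero_add] at h3
      simpa using h1.add h2
    · intro y hy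
      have hff : ff ((n + T : ℕ) : ℝ) ≤ 2 * ff X := by
        have h1 := e2 ((n + T : ℕ) : ℝ) (by push_cast; linarith) (by push_cast; linarith)
        rw [abs_lt] at h1
        rcases le_or_gt (ff ((n + T : ℕ) : ℝ)) 0 with h0 | h0
        · linarith
        · have h2 : 1 / 2 < ff X / ff ((n + T : ℕ) : ℝ) := by linarith [h1.1]
          rw [lt_div_iff₀ h0] at h2
          linarith
      have hyT2 : |(y : ℝ)| ≤ T / 2 := by
        refine hy.trans ?_
        have h1 : c / 16 * ff ((n + T : ℕ) : ℝ) ≤ c / 16 * (2 * ff X) :=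
          mul_le_mul_of_nonneg_left hff (by positivity)
        linarith
      rw [abs_le] at hyT2
      obtain ⟨s, hs'⟩ : ∃ s : ℕ, (s : ℤ) = T + y := by
        refine ⟨((T : ℤ) + y).toNat, Int.toNat_of_nonneg ?_⟩
        have : (0 : ℝ) ≤ T + y := by linarith [hyT2.1]
        exact_mod_cast this
      have hsR : (s : ℝ) = T + y := by exact_mod_cast congrArg (fun z : ℤ => (z : ℝ)) hs'
      have e1 : (((n + T : ℕ) : ℤ) + y).toNat = n + s := by
        have : ((n + T : ℕ) : ℤ) + y = ((n + s : ℕ) : ℤ) := by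
          push_cast
          rw [hs']
          ring
        rw [this, Int.toNat_natCast]
      rw [e1]
      constructor
      · intro hp
        obtain ⟨j, hj⟩ := hs s (by linarith [hyT2.2]) hp
        refine ⟨hh (pos j), mem_image.2 ⟨pos j, mem_image.2 ⟨j, mem_filter.2 ⟨mem_univ _, by
          rw [← hj]; exact hp⟩, rfl⟩, rfl⟩, ?_⟩
        have h1 : (s : ℤ) = T + q * hh (pos j) := by
          rw [hj]
          simp only [ht]
          push_cast
          ring
        linarith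
      · rintro ⟨z, hz, hyz⟩
        obtain ⟨x, hx, rfl⟩ := mem_image.1 hz
        obtain ⟨j, hj, rfl⟩ := mem_image.1 hx
        have h1 := (mem_filter.1 hj).2
        have h2 : s = t j := by
          have h3 : (s : ℤ) = (t j : ℕ) := by
            rw [hs', hyz]
            simp only [ht]
            push_cast
            ring
          exact_mod_cast h3
        rw [h2]
        exact h1
  · intro x hx y hy hxy
    obtain ⟨i, hi, rfl⟩ := mem_image.1 hx
    obtain ⟨j, hj, rfl⟩ := mem_image.1 hy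
    rw [hposdiv, hposdiv] at hxy
    rw [hJcl i hi j hj hxy]

end Pool.Agent.J6H13.RW
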