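import Pool.Agent.J6H13.RW.Iso
import Pool.Agent.Y827.RO.NarF

/-! Exact patterns of primes isolated by record gaps, at every scale. The proof is that of
`Pool.Agent.J6H13.RW.Iso`, with the coloured Maynard-Tao theorem of the starting files which is valid for all large
`N` and localised (`Pool.Agent.Y827.RO.lamR0`). -/

set_option autoImplicit false

open Finset Filter

namespace Pool.Agent.J6H13.RW

open Pool.Agent.H256R2.SC (ff t1 t2)
open Pool.Agent.H312R2.RG.C3 (ff_tendsto ff_lower ff_small ff_slow)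
open Pool.Agent.H378R2 (yy)
open Pool.Agent.H362R2.RQ (dvd_of_primes)

/-- for some `n ≡ a` modulo `q` in `(X, 4 X]` the primes at distance at most `δ f(X)` from `n` are exactly the
numbers `n + q s`, `s ∈ S` -/
def IsoX (δ : ℝ) (q a : ℕ) (X : ℝ) (S : Finset ℕ) : Prop :=
  ∃ n : ℕ, X < n ∧ (n : ℝ) ≤ 4 * X ∧ n ≡ a [MOD q] ∧
    ∀ y : ℤ, |(y : ℝ)| ≤ δ * ff X → (Nat.Prime ((n : ℤ) + y).toNat ↔ ∃ s ∈ S, y = q * s)

theorem box_isoX (h : StRW) : ∃ C : ℕ, 1 ≤ C ∧ ∀ k : ℕ, 1 ≤ k → ∃ M K : ℕ, 1 ≤ M ∧ M ≤ C * k ^ 2 ∧ 1 ≤ K ∧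
    ∃ δ : ℝ, 0 < δ ∧ ∀ q a : ℕ, Squarefree q → a.Coprime q → ∀ Dm : ℕ, ∃ X₀ : ℝ, ∀ X : ℝ, X₀ ≤ X →
      ∀ hh : ℕ → ℕ, (∀ x < M * K, hh x ≤ Dm) →
      (∀ x < M * K, ∀ y < M * K, hh x = hh y → x = y) →
      (∀ p : ℕ, p.Prime → ¬ p ∣ q → ∃ b : ℕ, ∀ x < M * K, ¬ p ∣ b + hh x) →
      ∃ I : Finset ℕ, (∀ x ∈ I, x < M * K) ∧ (k ≤ I.card ∧ I.card ≤ C * k) ∧
        (∀ x ∈ I, ∀ y ∈ I, x / K = y / K → x = y) ∧ IsoX δ q a X (I.image hh) := by
  classical
  obtain ⟨C₁, c₀, hC₁, hc₀, hmain⟩ := h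
  obtain ⟨D, hD1, hpar⟩ := choose2 hC₁ hc₀
  refine ⟨8 * D, by omega, ?_⟩
  intro k hk
  have hk1 : (1 : ℝ) ≤ k := by exact_mod_cast hk
  obtain ⟨B, b, hB1, hbB, hBk, hBD, hb1, hb2⟩ := hpar k hk
  have hB1' : (1 : ℝ) ≤ B := by exact_mod_cast hB1
  have hB0 : (0 : ℝ) < B := by linarith
  obtain ⟨c, hc, hz⟩ := hmain B hB1
  set g₀ := 2 ^ (B - b) with hg₀
  have hg₀1 : 1 ≤ g₀ := Nat.one_le_two_pow
  have hmg : 2 ^ b * g₀ = 2 ^ B := by rw [hg₀, ← pow_add, Nat.add_sub_cancel' hbB]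
  set M := 8 * 2 ^ b with hM
  set G := 8 * g₀ with hG
  have hG0 : 0 < G := by omega
  have hM1 : 1 ≤ M := by
    have : 1 ≤ 2 ^ b := Nat.one_le_two_pow
    omega
  have hMG1 : 1 ≤ M * G := Nat.mul_pos hM1 hG0
  obtain ⟨M₂, hM2a, hM2b⟩ := Pool.Agent.Y827.RO.ceilM (M * G) hMG1
  obtain ⟨K2, hK2, δ₀, hδ₀, hlam⟩ := Pool.Agent.Y827.RO.lamR0 (M * G) M₂ hMG1 hM2a
  refine ⟨M, K2 * G, hM1, ?_, Nat.mul_pos hK2 hG0, c / 1024, by positivity, ?_⟩
  · rw [hM]
    calc 8 * 2 ^ b ≤ 8 * (D * k ^ 2) := Nat.mul_le_mul_left _ hb2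
      _ = 8 * D * k ^ 2 := by ring
  intro q a hq haq Dm
  have hq0 : 0 < q := Nat.pos_of_ne_zero hq.ne_zero
  have hqR : (1 : ℝ) ≤ q := by exact_mod_cast hq0
  have hK20 : 0 < K2 := hK2
  obtain ⟨s₀, c₂, hc₂, hev⟩ := hlam q
  obtain ⟨N₁, hN₁⟩ := eventually_atTop.1 hev
  -- a large element
  obtain ⟨Bh, hBh⟩ : ∃ Bh : ℕ, Bh = q * Dm := ⟨_, rfl⟩
  obtain ⟨N₂, hN₂⟩ : ∃ N₂ : ℕ, N₂ = N₁ + a + Bh + 3 := ⟨_, rfl⟩
  obtain ⟨X1, hX1⟩ := hz q
  obtain ⟨X2, hX2⟩ := eventually_atTop.1 ((scale_ev (c / 16) (by positivity)).and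
    ((ff_small c hc).and ((ff_tendsto.eventually_ge_atTop (16 * q * (N₂ + 2) * 64 / c)).and
      ((t1.eventually_ge_atTop 1).and (eventually_ge_atTop (1 : ℝ))))))
  refine ⟨max X1 X2, fun X hXX hh hhD hinj hadm => ?_⟩
  have hX1' : X1 ≤ X := (le_max_left _ _).trans hXX
  have hX2' : X2 ≤ X := (le_max_right _ _).trans hXX
  obtain ⟨e1, e3, e4, e5, e6⟩ := hX2 X hX2'
  have hcff : 1024 * (q : ℝ) * (N₂ + 2) ≤ c * ff X := by
    rw [div_le_iff₀ hc] at e4
    linarith
  -- the index of an element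
  set idx : Fin (M * G) → Fin K2 → ℕ := fun g i => (g : ℕ) * K2 + i with hidx
  have hidxlt : ∀ g i, idx g i < M * (K2 * G) := by
    intro g i
    have h1 : (g : ℕ) + 1 ≤ M * G := g.2
    have h2 : ((g : ℕ) + 1) * K2 ≤ (M * G) * K2 := Nat.mul_le_mul_right _ h1
    have h3 : (i : ℕ) < K2 := i.2
    have h4 : ((g : ℕ) + 1) * K2 = (g : ℕ) * K2 + K2 := by ring
    have h5 : M * (K2 * G) = M * G * K2 := by ring
    simp only [hidx]
    omega
  have hidxdiv : ∀ g i, idx g i / K2 = g := by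
    intro g i
    simp only [hidx]
    rw [Nat.add_comm, Nat.add_mul_div_right _ _ hK20, Nat.div_eq_of_lt i.2, zero_add]
  have hidxinj : ∀ g i g' i', idx g i = idx g' i' → g = g' ∧ i = i' := by
    intro g i g' i' he
    have h1 : (g : ℕ) = g' := by rw [← hidxdiv g i, he, hidxdiv]
    refine ⟨Fin.ext h1, Fin.ext ?_⟩
    simp only [hidx] at he
    rw [h1] at he
    omega
  -- the scale of the first application
  set N : ℕ := ⌊c * ff X / (8 * q)⌋₊ with hN
  have hq8 : (0 : ℝ) < 8 * q := by positivity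
  have hNhi : (N : ℝ) * (8 * q) ≤ c * ff X := by
    have h1 : (N : ℝ) ≤ c * ff X / (8 * q) := Nat.floor_le (by
      have : 0 ≤ 1024 * (q : ℝ) * (N₂ + 2) := by positivity
      exact div_nonneg (this.trans hcff) hq8.le)
    rwa [le_div_iff₀ hq8] at h1
  have hNlo : c * ff X < ((N : ℝ) + 1) * (8 * q) := by
    have h1 : c * ff X / (8 * q) < N + 1 := Nat.lt_floor_add_one _
    rwa [div_lt_iff₀ hq8] at h1
  have hNN2 : 64 * (N₂ : ℝ) + 64 ≤ N := by
    have h1 : 1024 * (q : ℝ) * (N₂ + 2) < ((N : ℝ) + 1) * (8 * q) := hcff.trans_lt hNlo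
    have h2 : 128 * ((N₂ : ℝ) + 2) * (8 * q) < ((N : ℝ) + 1) * (8 * q) := by linarith
    have h3 := lt_of_mul_lt_mul_right h2 hq8.le
    have h4 : (0 : ℝ) ≤ N₂ := Nat.cast_nonneg _
    linarith
  have hNN2' : 64 * N₂ + 64 ≤ N := by exact_mod_cast hNN2
  have hN1 : N₁ ≤ N := by omega
  have hNr : (1 : ℝ) ≤ N := by exact_mod_cast (by omega : 1 ≤ N)
  obtain ⟨s, S, cf, -, -, -, hScard, hcard⟩ := hN₁ N hN1
    (fun g i => ((q : ℤ), ((a : ℤ) + q * hh (idx g i))))
    (by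
      intro x y hxy
      simp only [Prod.mk.injEq, true_and, add_right_inj] at hxy
      have hq0' : (q : ℤ) ≠ 0 := by exact_mod_cast hq0.ne'
      have h1 : (hh (idx x.1 x.2) : ℤ) = hh (idx y.1 y.2) := mul_left_cancel₀ hq0' hxy
      have h2 : hh (idx x.1 x.2) = hh (idx y.1 y.2) := by exact_mod_cast h1
      obtain ⟨h3, h4⟩ := hidxinj _ _ _ _ (hinj _ (hidxlt _ _) _ (hidxlt _ _) h2)
      exact Prod.ext h3 h4)
    (by
      intro g i
      have hle : q * hh (idx g i) ≤ Bh := by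
        rw [hBh]
        exact Nat.mul_le_mul_left _ (hhD _ (hidxlt g i))
      refine ⟨?_, ?_, ?_, ?_, ?_⟩
      · show (q : ℤ) ≠ 0
        exact_mod_cast hq0.ne'
      · simp only
        rw [abs_of_nonneg (by positivity)]
      · simp only
        rw [abs_of_nonneg (by positivity)]
        have h1 : a + q * hh (idx g i) ≤ N := by omega
        exact_mod_cast h1
      · simp only
        have h1 : IsCoprime (q : ℤ) (a : ℤ) := (Nat.isCoprime_iff_coprime.2 haq).symm
        exact h1.add_mul_left_right _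
      · intro t ht _
        simp only
        have h0 : 0 ≤ t := by linarith
        have h1 : t ≤ q * t := le_mul_of_one_le_left h0 hqR
        have h2 : (0 : ℝ) ≤ ((a : ℤ) + q * hh (idx g i) : ℤ) := by exact_mod_cast Nat.zero_le _
        push_cast at h2 ⊢
        linarith)
    (by
      intro p hp _
      by_cases hpq : p ∣ q
      · refine ⟨0, fun g i hd => ?_⟩
        simp only [mul_zero, zero_add] at hd
        have h1 : (p : ℤ) ∣ (q : ℤ) * hh (idx g i) := (Int.natCast_dvd_natCast.2 hpq).mul_right _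
        have h2 : (p : ℤ) ∣ (a : ℤ) := (dvd_add_left h1).1 hd
        have h3 : p ∣ a := by exact_mod_cast h2
        have h4 := Nat.dvd_gcd h3 hpq
        rw [Nat.Coprime] at haq
        rw [haq] at h4
        exact hp.one_lt.ne' (Nat.dvd_one.1 h4)
      · obtain ⟨b', hb'⟩ := hadm p hp hpq
        have hcop : IsCoprime (q : ℤ) (p : ℤ) :=
          (Nat.isCoprime_iff_coprime.2 ((Nat.Prime.coprime_iff_not_dvd hp).2 hpq)).symm
        obtain ⟨u, v, huv⟩ := hcop
        -- `q u ≡ 1`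
        refine ⟨b' - a * u, fun g i hd => hb' (idx g i) (hidxlt g i) ?_⟩
        have h1 : (q : ℤ) * (b' - a * u) + (a + q * hh (idx g i)) =
            q * (b' + hh (idx g i)) + p * (a * v) := by
          have : (q : ℤ) * u = 1 - p * v := by linarith
          calc (q : ℤ) * (b' - a * u) + (a + q * hh (idx g i))
              = q * (b' + hh (idx g i)) - a * (q * u) + a := by ring
            _ = _ := by rw [this]; ring
        simp only at hd
        rw [h1] at hd
        have h2 : (p : ℤ) ∣ (q : ℤ) * (b' + hh (idx g i)) := (dvd_add_left (Dvd.intro _ rfl)).1 hd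
        have h3 : (p : ℤ) ∣ ((b' : ℤ) + hh (idx g i)) := by
          rcases Int.Prime.dvd_mul' hp h2 with h | h
          · exact absurd (by exact_mod_cast h) hpq
          · exact h
        exact_mod_cast h3)
  have hSquart : M * G ≤ 4 * S.card := by
    have h1 : ((M * G : ℕ) : ℝ) ≤ 18 / 5 * S.card := by
      refine hM2b.trans (mul_le_mul_of_nonneg_left ?_ (by norm_num))
      exact_mod_cast hScard
    have h2 : ((M * G : ℕ) : ℝ) ≤ ((4 * S.card : ℕ) : ℝ) := by
      push_cast at h1 ⊢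
      have : (0 : ℝ) ≤ S.card := Nat.cast_nonneg _
      linarith
    exact_mod_cast h2
  obtain ⟨n', hn'⟩ : (Pool.Agent.Y827.RO.Rs (fun g i => ((q : ℤ), ((a : ℤ) + q * hh (idx g i)))) δ₀ s S cf N).Nonempty := by
    rw [← card_pos]
    have hlogN : 0 < Real.log N := Real.log_pos (by exact_mod_cast (by omega : 1 < N))
    have h1 : 0 < c₂ * (N / Real.log N ^ (M * G * K2 + 1)) := by positivity
    exact_mod_cast h1.trans_le hcard
  unfold Pool.Agent.Y827.RO.Rs at hn'
  rw [mem_filter, mem_Icc] at hn'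
  obtain ⟨⟨hn'1, hn'N⟩, hn'lo, -, -, hn'p⟩ := hn'
  have hn'NR : (n' : ℝ) ≤ N := by exact_mod_cast hn'N
  obtain ⟨U, hUS, hUc, hUd⟩ := rich M (2 ^ b) G g₀ hM hG hg₀1 S hSquart
  rw [hmg] at hUc
  set u := U.orderEmbOfFin hUc with hu
  have huU : ∀ j, u j ∈ U := fun j => Finset.orderEmbOfFin_mem U hUc j
  set pos : Fin (2 ^ B) → ℕ := fun j => idx (u j) (cf (u j)) with hpos
  have hposlt : ∀ j, pos j < M * (K2 * G) := fun j => hidxlt _ _
  have hposinj : ∀ i j, pos i = pos j → i = j := fun i j hij =>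
    u.injective (hidxinj _ _ _ _ hij).1
  have hposdiv : ∀ j, pos j / (K2 * G) = (u j : ℕ) / G := by
    intro j
    rw [← Nat.div_div_eq_div_mul, hidxdiv]
  -- the weights
  obtain ⟨lam, hlam⟩ : ∃ lam : ℝ, lam = 2 * C₁ * B + 1 := ⟨_, rfl⟩
  have hlam0 : 0 < lam := by rw [hlam]; positivity
  obtain ⟨η, hη⟩ : ∃ η : ℝ, η = 1 / (2 * C₁) / B := ⟨_, rfl⟩
  have hη0 : 0 < η := by rw [hη]; positivity
  have hηB : 2 * C₁ * B * η = 1 := by rw [hη]; field_simp
  set w : Fin (2 ^ B) → Fin (2 ^ B) → ℝ := fun i j =>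
    (if (u i : ℕ) / G = (u j : ℕ) / G then lam else 0) + η with hw
  have hw0 : ∀ i j, 0 ≤ w i j := by
    intro i j
    simp only [hw]
    split_ifs
    · linarith
    · linarith
  have hwsum : C₁ * B * ∑ i, ∑ j, w i j ≤ (2 ^ B) ^ 2 := by
    have h1 : ∀ i, ∑ j, w i j ≤ lam * g₀ + η * 2 ^ B := by
      intro i
      simp only [hw]
      rw [sum_add_distrib, ← sum_filter, sum_const, sum_const, card_univ, Fintype.card_fin, nsmul_eq_mul,
        nsmul_eq_mul]
      have h2 : ((univ : Finset (Fin (2 ^ B))).filter (fun j => (u i : ℕ) / G = (u j : ℕ) / G)).card ≤ g₀ := by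
        refine le_trans ?_ (hUd ((u i : ℕ) / G))
        apply card_le_card_of_injOn (fun j => u j)
        · intro j hj
          rw [mem_coe, mem_filter] at hj
          rw [mem_coe, mem_filter]
          exact ⟨huU j, hj.2.symm⟩
        · intro j _ j' _ hjj
          exact u.injective hjj
      have h3 : (((univ : Finset (Fin (2 ^ B))).filter (fun j => (u i : ℕ) / G = (u j : ℕ) / G)).card : ℝ) ≤
        g₀ := by exact_mod_cast h2
      have h4 := mul_le_mul_of_nonneg_right h3 hlam0.le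
      push_cast
      linarith
    have h2 : ∑ i, ∑ j, w i j ≤ 2 ^ B * (lam * g₀ + η * 2 ^ B) := by
      refine (sum_le_sum fun i _ => h1 i).trans (le_of_eq ?_)
      rw [sum_const, card_univ, Fintype.card_fin, nsmul_eq_mul]
      push_cast
      ring
    have h3 : C₁ * B * ∑ i, ∑ j, w i j ≤ C₁ * B * (2 ^ B * (lam * g₀ + η * 2 ^ B)) :=
      mul_le_mul_of_nonneg_left h2 (by positivity)
    refine h3.trans ?_
    have h4 : (2 : ℝ) ^ b * g₀ = 2 ^ B := by exact_mod_cast hmg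
    have h5 : 2 * (C₁ * B * lam) * g₀ ≤ 2 ^ B := by
      rw [← h4]
      apply mul_le_mul_of_nonneg_right _ (Nat.cast_nonneg _)
      rw [hlam]
      linarith
    have h6 : (0 : ℝ) < 2 ^ B := by positivity
    have h7 : C₁ * B * (2 ^ B * (lam * g₀ + η * 2 ^ B)) =
        (2 * (C₁ * B * lam) * g₀) * 2 ^ B / 2 + (2 * C₁ * B * η) * (2 ^ B) ^ 2 / 2 := by ring
    rw [h7, hηB]
    have h8 := mul_le_mul_of_nonneg_right h5 h6.le
    linarith
  set T : ℕ := q * n' + a with hT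
  have hTR : (T : ℝ) = q * n' + a := by rw [hT]; push_cast; ring
  have hhB : ∀ j, q * hh (pos j) ≤ Bh := fun j => by
    rw [hBh]
    exact Nat.mul_le_mul_left _ (hhD _ (hposlt j))
  have hBN : (a : ℝ) + Bh + 3 ≤ N₂ := by exact_mod_cast (by omega : a + Bh + 3 ≤ N₂)
  have hN₂0 : (0 : ℝ) ≤ N₂ := Nat.cast_nonneg _
  -- `2 T ≤ c f X`
  have hqn' : (q : ℝ) * n' ≤ q * N := mul_le_mul_of_nonneg_left hn'NR (by linarith)
  have ha0 : (0 : ℝ) ≤ a := Nat.cast_nonneg _
  have hBh0 : (0 : ℝ) ≤ Bh := Nat.cast_nonneg _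
  have hNqN : (N : ℝ) ≤ q * N := le_mul_of_one_le_left (by linarith) hqR
  have hXa : 2 * (T : ℝ) ≤ c * ff X := by
    have h1 : (a : ℝ) ≤ q * N := by linarith
    have h2 : (T : ℝ) ≤ 2 * (q * N) := by linarith
    have h3 : (N : ℝ) * (8 * q) = 8 * (q * N) := by ring
    rw [h3] at hNhi
    have h4 : 0 ≤ (q : ℝ) * N := by positivity
    linarith
  -- `c f X ≤ 256 T`
  have hXb : c * ff X ≤ 256 * T := by
    have h1 : (q : ℝ) * (N / 16) ≤ q * n' := mul_le_mul_of_nonneg_left hn'lo (by linarith)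
    have h2 : (q : ℝ) * N ≤ 16 * (q * n') := by linarith
    have h3 : ((N : ℝ) + 1) * (8 * q) ≤ 16 * (q * N) := by nlinarith
    linarith
  have hTB : 2 * (Bh : ℝ) + 2 ≤ T := by
    have h1 : (q : ℝ) * (N / 16) ≤ q * n' := mul_le_mul_of_nonneg_left hn'lo (by linarith)
    have h2 : (N : ℝ) / 16 ≤ q * (N / 16) := le_mul_of_one_le_left (by linarith) hqR
    linarith
  have hT0 : (0 : ℝ) ≤ T := Nat.cast_nonneg _
  -- the shifts
  set t : Fin (2 ^ B) → ℕ := fun j => T + q * hh (pos j) with ht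
  have htp : ∀ j, (t j).Prime := by
    intro j
    have a2 := hn'p (u j) (hUS (huU j))
    simp only at a2
    have e1 : (q : ℤ) * n' + (a + q * hh (idx (u j) (cf (u j)))) = ((t j : ℕ) : ℤ) := by
      simp only [ht, hT, hpos]
      push_cast
      ring
    rw [e1, Int.toNat_natCast] at a2
    exact a2
  have htinj : Function.Injective t := by
    intro i j hij
    have h1 : q * hh (pos i) = q * hh (pos j) := Nat.add_left_cancel hij
    have h2 : hh (pos i) = hh (pos j) := Nat.eq_of_mul_eq_mul_left hq0 h1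
    exact hposinj i j (hinj _ (hposlt i) _ (hposlt j) h2)
  have htR : ∀ j, (t j : ℝ) = T + ((q * hh (pos j) : ℕ) : ℝ) := fun j => by
    simp only [ht]
    push_cast
    ring
  have htlo : ∀ j, (T : ℝ) ≤ t j := by
    intro j
    rw [htR j]
    have : (0 : ℝ) ≤ ((q * hh (pos j) : ℕ) : ℝ) := Nat.cast_nonneg _
    linarith
  have hthi : ∀ j, (t j : ℝ) ≤ 2 * T := by
    intro j
    rw [htR j]
    have : ((q * hh (pos j) : ℕ) : ℝ) ≤ Bh := by exact_mod_cast hhB j
    linarith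
  have hyT : (yy X : ℝ) < T / 2 := by
    have h1 : (yy X : ℝ) ≤ Real.log X / 1000 := Nat.floor_le (by positivity)
    linarith
  obtain ⟨n, hn1, hn2, -, hcount, hs, hzn⟩ := hX1 X hX1' t htinj
    (fun j => ⟨htp j, by
      have h2 : (yy X : ℝ) < t j := by linarith [htlo j]
      exact_mod_cast h2, (hthi j).trans hXa⟩) w hw0 hwsum ∅ (by
      rw [card_empty, Nat.cast_zero]
      positivity)
  have hqn : q ∣ n := dvd_of_primes q n hq (fun p hp hpq => hzn p hp (Nat.le_of_dvd hq0 hpq))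
  set J0 : Finset (Fin (2 ^ B)) := univ.filter (fun j => (n + t j).Prime) with hJ0
  -- the number of the primes
  have hfilt : ∀ i, univ.filter (fun j => (n + t j).Prime ∧ i ≠ j) = J0.erase i := by
    intro i
    ext j
    rw [hJ0, mem_erase, mem_filter, mem_filter]
    constructor
    · rintro ⟨_, h1, h2⟩
      exact ⟨fun h => h2 h.symm, mem_univ _, h1⟩
    · rintro ⟨h1, _, h2⟩
      exact ⟨mem_univ _, h2, fun h => h1 h.symm⟩
  rw [sum_congr rfl (fun i _ => by rw [hfilt i])] at hcount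
  have hcB : 0 < c₀ * B := by positivity
  have hJk : k ≤ J0.card := by
    have h1 : 0 ≤ ∑ i ∈ J0, ∑ j ∈ J0.erase i, w i j :=
      sum_nonneg fun i _ => sum_nonneg fun j _ => hw0 i j
    have h2 : (k : ℝ) ≤ J0.card := by linarith
    exact_mod_cast h2
  have hJup : (J0.card : ℝ) < 2 * C₁ * B + 1 := by
    have h1 : ∑ i ∈ J0, ∑ _j ∈ J0.erase i, η ≤ ∑ i ∈ J0, ∑ j ∈ J0.erase i, w i j := by
      refine sum_le_sum fun i _ => sum_le_sum fun j _ => ?_
      simp only [hw]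
      split_ifs
      · linarith
      · linarith
    have h2 : ∑ i ∈ J0, ∑ _j ∈ J0.erase i, η = J0.card * (((J0.card : ℝ) - 1) * η) := by
      have h3 : ∀ i ∈ J0, ∑ _j ∈ J0.erase i, η = ((J0.card : ℝ) - 1) * η := by
        intro i hi
        rw [sum_const, nsmul_eq_mul, card_erase_of_mem hi, Nat.cast_sub (card_pos.2 ⟨i, hi⟩)]
        push_cast
        ring
      rw [sum_congr rfl h3, sum_const, nsmul_eq_mul]
    have h4 : (J0.card : ℝ) * (((J0.card : ℝ) - 1) * η) < J0.card * 1 := by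
      rw [h2] at h1
      linarith
    have h5 : (0 : ℝ) < J0.card := by
      have : (k : ℝ) ≤ J0.card := by exact_mod_cast hJk
      linarith
    have h6 : ((J0.card : ℝ) - 1) * η < 1 := lt_of_mul_lt_mul_left h4 h5.le
    have h7 : ((J0.card : ℝ) - 1) * η < 2 * C₁ * B * η := by rw [hηB]; exact h6
    have h8 := lt_of_mul_lt_mul_right h7 hη0.le
    linarith
  have hJD : J0.card ≤ 8 * D * k := by
    have h1 : (J0.card : ℝ) ≤ D * k := by linarith
    have h2 : J0.card ≤ D * k := by exact_mod_cast h1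
    have h3 : D * k ≤ 8 * (D * k) := by omega
    calc J0.card ≤ 8 * (D * k) := h2.trans h3
      _ = _ := by ring
  have hJcl : ∀ i ∈ J0, ∀ j ∈ J0, (u i : ℕ) / G = (u j : ℕ) / G → i = j := by
    intro i hi j hj hij
    by_contra hne
    have h1 : lam ≤ ∑ i ∈ J0, ∑ j ∈ J0.erase i, w i j := by
      have h2 : w i j ≤ ∑ j ∈ J0.erase i, w i j :=
        single_le_sum (f := fun j => w i j) (fun j _ => hw0 i j) (mem_erase.2 ⟨fun h => hne h.symm, hj⟩)
      have h3 : ∑ j ∈ J0.erase i, w i j ≤ ∑ i ∈ J0, ∑ j ∈ J0.erase i, w i j :=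
        single_le_sum (f := fun i => ∑ j ∈ J0.erase i, w i j)
          (fun i _ => sum_nonneg fun j _ => hw0 i j) hi
      have h4 : lam ≤ w i j := by
        simp only [hw, hij, if_true]
        linarith
      linarith
    rw [← hlam] at hJup
    linarith
  set I : Finset ℕ := J0.image pos with hI
  have hIc : I.card = J0.card := card_image_of_injective _ (fun i j hij => hposinj i j hij)
  have hTX : (T : ℝ) ≤ X := by linarith
  refine ⟨I, ?_, by rw [hIc]; exact ⟨hJk, hJD⟩, ?_, n + T, ?_, ?_, ?_, ?_⟩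
  · intro x hx
    obtain ⟨j, -, rfl⟩ := mem_image.1 hx
    exact hposlt j
  · intro x hx y hy hxy
    obtain ⟨i, hi, rfl⟩ := mem_image.1 hx
    obtain ⟨j, hj, rfl⟩ := mem_image.1 hy
    rw [hposdiv, hposdiv] at hxy
    rw [hJcl i hi j hj hxy]
  · push_cast
    linarith
  · push_cast
    linarith
  · have h1 : n ≡ 0 [MOD q] := (Nat.modEq_zero_iff_dvd).2 hqn
    have h2 : T ≡ a [MOD q] := by
      rw [hT]
      have : q * n' ≡ 0 [MOD q] := (Nat.modEq_zero_iff_dvd).2 (Dvd.intro _ rfl)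
      have h3 := this.add_right a
      rwa [zero_add] at h3
    simpa using h1.add h2
  · intro y hy
    have hyT2 : |(y : ℝ)| ≤ T / 2 := by
      refine hy.trans ?_
      linarith
    rw [abs_le] at hyT2
    obtain ⟨s, hs'⟩ : ∃ s : ℕ, (s : ℤ) = T + y := by
      refine ⟨((T : ℤ) + y).toNat, Int.toNat_of_nonneg ?_⟩
      have : (0 : ℝ) ≤ T + y := by linarith [hyT2.1]
      exact_mod_cast this
    have hsR : (s : ℝ) = T + y := by exact_mod_cast congrArg (fun z : ℤ => (z : ℝ)) hs'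
    have e1 : (((n + T : ℕ) : ℤ) + y).toNat = n + s := by
      have : ((n + T : ℕ) : ℤ) + y = ((n + s : ℕ) : ℤ) := by
        push_cast
        rw [hs']
        ring
      rw [this, Int.toNat_natCast]
    rw [e1]
    constructor
    · intro hp
      obtain ⟨j, hj⟩ := hs s (by linarith [hyT2.2]) hp
      refine ⟨hh (pos j), mem_image.2 ⟨pos j, mem_image.2 ⟨j, mem_filter.2 ⟨mem_univ _, by
        rw [← hj]; exact hp⟩, rfl⟩, rfl⟩, ?_⟩
      have h1 : (s : ℤ) = T + q * hh (pos j) := by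
        rw [hj]
        simp only [ht]
        push_cast
        ring
      linarith
    · rintro ⟨z, hz, hyz⟩
      obtain ⟨x, hx, rfl⟩ := mem_image.1 hz
      obtain ⟨j, hj, rfl⟩ := mem_image.1 hx
      have h1 := (mem_filter.1 hj).2
      have h2 : s = t j := by
        have h3 : (s : ℤ) = (t j : ℕ) := by
          rw [hs', hyz]
          simp only [ht]
          push_cast
          ring
        exact_mod_cast h3
      rw [h2]
      exact h1

end Pool.Agent.J6H13.RW
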